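import Mathlib
import Pool.Agent.R945.LD.Core

/-! Solutions of the Toeplitz system of the quadratic character, for every odd prime. -/

set_option autoImplicit false
set_option linter.unusedSectionVars false

namespace Pool.Agent.R945.TP

open Finset Polynomial Pool.Agent.Helper184.Chapman Pool.Agent.R945.LD

variable {p : ℕ} [Fact p.Prime] {K : Type*} [Field K]

lemma two_ne' (hp2 : p ≠ 2) : (2 : ZMod p) ≠ 0 := by
  intro h
  have : ((2 : ℕ) : ZMod p) = 0 := by exact_mod_cast h
  rw [ZMod.natCast_eq_zero_iff] at this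
  exact hp2 ((Nat.prime_dvd_prime_iff_eq (Fact.out : p.Prime) Nat.prime_two).mp this)

lemma chi_ne (hp2 : p ≠ 2) (h2 : (2 : K) ≠ 0) : chi p K ≠ 1 := by
  intro h
  have hc : ringChar (ZMod p) ≠ 2 := by rwa [ZMod.ringChar_zmod_n]
  obtain ⟨a, ha⟩ := quadraticChar_exists_neg_one (F := ZMod p) hc
  have h1 := DFunLike.congr_fun h a
  have hu : IsUnit a := by
    by_contra hu
    rw [MulChar.map_nonunit _ hu] at ha
    norm_num at ha
  rw [chi_apply, ha, MulChar.one_apply hu] at h1
  apply h2
  push_cast at h1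
  linear_combination -h1

lemma gshift (hp2 : p ≠ 2) (h2 : (2 : K) ≠ 0) (ψ : AddChar (ZMod p) K) (a : ZMod p) :
    ∑ k : ZMod p, chi p K k * ψ (a * k) = chi p K a * gaussSum (chi p K) ψ := by
  by_cases ha : a = 0
  · subst ha
    simp only [zero_mul, AddChar.map_zero_eq_one, mul_one]
    rw [MulChar.map_zero, zero_mul]
    exact MulChar.sum_eq_zero_of_ne_one (chi_ne hp2 h2)
  · have h := gaussSum_mulShift (chi p K) ψ (Units.mk0 a ha)
    rw [← h, Units.val_mk0, ← mul_assoc, chi_sq ha, one_mul]
    rfl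

/-- the sign `χ(-1)` -/
noncomputable def et (p : ℕ) [Fact p.Prime] (K : Type*) [Field K] : K := chi p K (-1)

lemma et_sq : et p K * et p K = 1 := chi_sq (by simp)

lemma chi_neg' (k : ZMod p) : chi p K (-k) = et p K * chi p K k := by
  rw [et, ← map_mul]; simp

lemma gsq (hp2 : p ≠ 2) (h2 : (2 : K) ≠ 0) (ψ : AddChar (ZMod p) K) (hψ : ψ.IsPrimitive) :
    gaussSum (chi p K) ψ ^ 2 = et p K * (p : K) := by
  have e : gaussSum (chi p K) ψ ^ 2 = chi p K (-1) * Fintype.card (ZMod p) :=
    gaussSum_sq (χ := chi p K) (chi_ne hp2 h2) chi_quad hψ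
  rw [e, ZMod.card, et]

lemma prod_chi' : ∏ k ∈ univ.erase (0 : ZMod p), chi p K k = et p K := by
  rw [← map_prod]
  have hw : ∏ k ∈ univ.erase (0 : ZMod p), k = -1 := by
    have h := FiniteField.prod_univ_units_id_eq_neg_one (K := ZMod p)
    have h2 : (∏ x : (ZMod p)ˣ, (x : ZMod p)) = -1 := by
      rw [← Units.coe_prod, h]; simp
    rw [← h2]
    symm
    apply Finset.prod_bij (fun (x : (ZMod p)ˣ) _ => (x : ZMod p))
    · intro a _; simp
    · intro a _ b _ hab; exact Units.ext hab
    · intro b hb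
      exact ⟨Units.mk0 b (by simpa using hb), by simp, rfl⟩
    · intro a _; rfl
  rw [hw, et]

lemma prod_psi' (hp2 : p ≠ 2) (ψ : AddChar (ZMod p) K) :
    ∏ k ∈ univ.erase (0 : ZMod p), ψ k = 1 := by
  rw [← prod_psi hp2 ψ]
  apply Finset.prod_bij (fun k _ => -k)
  · intro k hk; simpa using hk
  · intro k _ l _ h; exact neg_injective h
  · intro k hk; exact ⟨-k, by simpa using hk, by simp⟩
  · intro k _; simp

section facts

variable (m : ℕ) (hm : p = 2 * m + 1) (hm0 : 0 < m) (ψ : AddChar (ZMod p) K) (hψ : ψ.IsPrimitive)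

include hm in
lemma PP_zero : (PP ψ).coeff 0 = et p K := by
  have hp2 : p ≠ 2 := by omega
  rw [coeff_zero_eq_eval_zero, PP, eval_prod]
  simp only [eval_sub, eval_X, eval_C, zero_sub]
  have e : ∀ k ∈ univ.erase (0 : ZMod p), -pt ψ k = (-1) * (chi p K k * ψ k) := by
    intro k _; rw [pt]; ring
  rw [Finset.prod_congr rfl e, Finset.prod_mul_distrib, Finset.prod_mul_distrib, Finset.prod_const,
    card_S m hm, prod_chi', prod_psi' hp2]
  simp

include hm in
lemma PP_top : (PP ψ).coeff (2 * m) = 1 := by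
  have := (PP_monic ψ).coeff_natDegree
  rwa [PP_deg m hm] at this

include hm in
lemma PP_large (n : ℕ) (hn : 2 * m < n) : (PP ψ).coeff n = 0 :=
  coeff_eq_zero_of_natDegree_lt (by rw [PP_deg m hm]; omega)

include hm hψ in
lemma PP_prod : (PP ψ).eval 1 * (PP ψ).eval (-1) = p := by
  have hp2 : p ≠ 2 := by omega
  have h6 : (2 : ZMod p) ≠ 0 := two_ne' hp2
  have hP1 : (PP ψ).eval 1 = ∏ k ∈ univ.erase (0 : ZMod p), (1 - pt ψ k) := by
    rw [PP, eval_prod]; simp
  have e1 : (PP ψ).eval (-1) = ∏ k ∈ univ.erase (0 : ZMod p), (-1 - pt ψ k) := by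
    rw [PP, eval_prod]; simp
  rw [hP1, e1, ← Finset.prod_mul_distrib]
  have e3 : ∀ k ∈ univ.erase (0 : ZMod p), (1 - pt ψ k) * (-1 - pt ψ k) =
      (-1) * (1 - ψ (2 * k)) := by
    intro k hk
    have hk0 : k ≠ 0 := by simpa using hk
    rw [← pt_sq ψ hk0]; ring
  rw [Finset.prod_congr rfl e3, Finset.prod_mul_distrib, Finset.prod_const, card_S m hm]
  have e4 : ∏ k ∈ univ.erase (0 : ZMod p), (1 - ψ (2 * k)) =
      ∏ k ∈ univ.erase (0 : ZMod p), (1 - ψ k) := by
    apply Finset.prod_bij (fun k _ => 2 * k)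
    · intro k hk
      have hk0 : k ≠ 0 := by simpa using hk
      simpa using ⟨h6, hk0⟩
    · intro k _ l _ h; exact mul_left_cancel₀ h6 h
    · intro k hk
      have hk0 : k ≠ 0 := by simpa using hk
      refine ⟨2⁻¹ * k, ?_, ?_⟩
      · simpa using ⟨h6, hk0⟩
      · rw [← mul_assoc, mul_inv_cancel₀ h6, one_mul]
    · intro k _; rfl
  rw [e4]
  have e5 : ∏ k ∈ univ.erase (0 : ZMod p), (1 - ψ k) = (p : K) := by
    have h4 : ∏ k ∈ univ.erase (0 : ZMod p), (1 - ψ k) =
        ∏ i ∈ Finset.range (p - 1), (1 - (ψ 1) ^ (i + 1)) := by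
      symm
      apply Finset.prod_bij (fun (i : ℕ) _ => ((i + 1 : ℕ) : ZMod p))
      · intro i hi
        rw [Finset.mem_range] at hi
        simp only [Finset.mem_erase, Finset.mem_univ, and_true]
        intro h
        rw [ZMod.natCast_eq_zero_iff] at h
        have := Nat.le_of_dvd (by omega) h
        omega
      · intro a ha b hb hab
        rw [Finset.mem_range] at ha hb
        have := congrArg ZMod.val hab
        rw [ZMod.val_natCast_of_lt (by omega), ZMod.val_natCast_of_lt (by omega)] at this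
        omega
      · intro b hb
        simp only [Finset.mem_erase, Finset.mem_univ, and_true] at hb
        have h5 : b.val ≠ 0 := by rwa [Ne, ZMod.val_eq_zero]
        have h6 := ZMod.val_lt b
        refine ⟨b.val - 1, ?_, ?_⟩
        · rw [Finset.mem_range]; omega
        · rw [show b.val - 1 + 1 = b.val by omega, ZMod.natCast_zmod_val]
      · intro i _
        rw [← AddChar.map_nsmul_eq_pow, nsmul_eq_mul, mul_one]
    rw [h4]
    have hprim : IsPrimitiveRoot (ψ 1) p := by
      rw [IsPrimitiveRoot.iff_def]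
      constructor
      · rw [← AddChar.map_nsmul_eq_pow, nsmul_eq_mul, ZMod.natCast_self, zero_mul,
          AddChar.map_zero_eq_one]
      · intro l hl
        rw [← AddChar.map_nsmul_eq_pow, nsmul_eq_mul, mul_one] at hl
        have := (hψ.zmod_char_eq_one_iff p _).mp hl
        rwa [ZMod.natCast_eq_zero_iff] at this
    have h5 := IsPrimitiveRoot.prod_one_sub_pow_eq_order (R := K) (n := 2 * m) (μ := ψ 1)
      (by rw [← hm]; exact hprim)
    rw [show p - 1 = 2 * m by omega, h5, hm]
    push_cast
    ring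
  rw [e5]
  simp

include hm in
lemma PP_next (hm0 : 0 < m) : (PP ψ).coeff (2 * m - 1) = - gaussSum (chi p K) ψ := by
  have h1 : (PP ψ).nextCoeff = (PP ψ).coeff (2 * m - 1) := by
    rw [nextCoeff_of_natDegree_pos (by rw [PP_deg m hm]; omega), PP_deg m hm]
  rw [← h1, PP, Polynomial.prod_X_sub_C_nextCoeff]
  congr 1
  rw [gaussSum, ← Finset.add_sum_erase univ _ (Finset.mem_univ (0 : ZMod p)), MulChar.map_zero]
  simp [pt]

include hm in
lemma PP_one_coeff (h2 : (2 : K) ≠ 0) : (PP ψ).coeff 1 = - gaussSum (chi p K) ψ := by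
  have hp2 : p ≠ 2 := by omega
  have hes := et_sq (p := p) (K := K)
  have h0 := PP_zero m hm ψ
  have h1 : (PP ψ).coeff 1 = (derivative (PP ψ)).eval 0 := by
    rw [← coeff_zero_eq_eval_zero, coeff_derivative]; simp
  rw [h1]
  have h3 : derivative (PP ψ) = ∑ k ∈ univ.erase (0 : ZMod p),
      (∏ l ∈ (univ.erase (0 : ZMod p)).erase k, (X - C (pt ψ l))) * derivative (X - C (pt ψ k)) := by
    rw [PP, derivative_prod_finset]
  rw [h3, eval_finsetSum]
  have h4 : ∀ k ∈ univ.erase (0 : ZMod p),
      ((∏ l ∈ (univ.erase (0 : ZMod p)).erase k, (X - C (pt ψ l))) * derivative (X - C (pt ψ k))).eval 0 =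
      - et p K * (chi p K k * ψ ((-1) * k)) := by
    intro k hk
    have hk0 : k ≠ 0 := by simpa using hk
    simp only [derivative_sub, derivative_X, derivative_C, sub_zero, mul_one, eval_prod, eval_sub, eval_X,
      eval_C, zero_sub]
    have h5 : (∏ l ∈ (univ.erase (0 : ZMod p)).erase k, -pt ψ l) * (-pt ψ k) = et p K := by
      rw [Finset.prod_erase_mul _ _ hk, ← h0, coeff_zero_eq_eval_zero, PP, eval_prod]
      simp
    have e4 := chi_sq (K := K) hk0
    have e5 : ψ ((-1) * k) * ψ k = 1 := by rw [← AddChar.map_add_eq_mul]; simp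
    rw [pt] at h5
    linear_combination (-(chi p K k * ψ ((-1) * k))) * h5 -
      (∏ l ∈ (univ.erase (0 : ZMod p)).erase k, -pt ψ l) * (ψ ((-1) * k) * ψ k) * e4
      - (∏ l ∈ (univ.erase (0 : ZMod p)).erase k, -pt ψ l) * e5
  rw [Finset.sum_congr rfl h4, ← Finset.mul_sum]
  have h6 := gshift hp2 h2 ψ (-1)
  rw [← Finset.add_sum_erase univ _ (Finset.mem_univ (0 : ZMod p)), MulChar.map_zero, zero_mul, zero_add] at h6
  rw [h6, ← et]
  linear_combination (-gaussSum (chi p K) ψ) * hes

/-- the constant in the transform -/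
noncomputable def aa (ψ : AddChar (ZMod p) K) : K := (p : K)⁻¹ * (chi p K (-2) * gaussSum (chi p K) ψ)

/-- the right side -/
noncomputable def RR (m : ℕ) (ψ : AddChar (ZMod p) K) (b b0 bm : K) : K[X] :=
  - C (aa ψ * b) * ∑ l ∈ range m, X ^ (2 * l + 1) + C (aa ψ * b0) * (X ^ (2 * m + 1) - X * PP ψ)
    - C (aa ψ * bm * et p K) * divX (PP ψ)

include hm in
lemma RR_deg (hm0 : 0 < m) (b b0 bm : K) : (RR m ψ b b0 bm).natDegree ≤ 2 * m := by
  have d1 : (- C (aa ψ * b) * ∑ l ∈ range m, X ^ (2 * l + 1) : K[X]).natDegree ≤ 2 * m := by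
    rw [← C_neg]
    refine (natDegree_C_mul_le _ _).trans ?_
    apply natDegree_sum_le_of_forall_le
    intro l hl
    rw [Finset.mem_range] at hl
    rw [natDegree_X_pow]; omega
  have d2 : (C (aa ψ * b0) * (X ^ (2 * m + 1) - X * PP ψ) : K[X]).natDegree ≤ 2 * m := by
    refine (natDegree_C_mul_le _ _).trans ?_
    rw [natDegree_le_iff_coeff_eq_zero]
    intro n hn
    obtain ⟨n', rfl⟩ : ∃ n', n = n' + 1 := ⟨n - 1, by omega⟩
    rw [coeff_sub, coeff_X_pow, coeff_X_mul]
    by_cases h : n' = 2 * m
    · subst h; rw [PP_top m hm]; simp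
    · rw [if_neg (by omega), PP_large m hm ψ n' (by omega)]; simp
  have d3 : (C (aa ψ * bm * et p K) * divX (PP ψ) : K[X]).natDegree ≤ 2 * m := by
    refine (natDegree_C_mul_le _ _).trans ?_
    rw [natDegree_le_iff_coeff_eq_zero]
    intro n hn
    rw [coeff_divX, PP_large m hm ψ _ (by omega)]
  exact (natDegree_sub_le_of_le (natDegree_add_le_of_degree_le d1 d2) d3).trans (by simp)

include hm hψ in
/-- the main theorem on solutions of the Toeplitz system -/
theorem main (hm0 : 0 < m) (h2 : (2 : K) ≠ 0) (hpK : (p : K) ≠ 0) (v : ℕ → K) (b b0 bm : K)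
    (hv : ∀ i ∈ range (m + 1), ∑ j ∈ range (m + 1), chi p K ((i : ZMod p) - (j : ZMod p)) * v j =
      b + (if i = 0 then b0 else 0) + (if i = m then bm else 0)) :
    ∃ (β : K) (y : ℕ → K),
      (∑ j ∈ range (m + 1), C (v j) * X ^ (2 * j) - ∑ l ∈ range m, C (y l) * X ^ (2 * l + 1) =
        C β * PP ψ + RR m ψ b b0 bm) ∧
      (∀ l, y l = aa ψ * ∑ j ∈ range (m + 1), chi p K (((m + 1 + l : ℕ) : ZMod p) - (j : ZMod p)) * v j) ∧
      aa ψ * b * (m + 1) + aa ψ * b0 + aa ψ * bm + ∑ l ∈ range m, y l = 0 := by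
  have hp : p.Prime := Fact.out
  have hp2 : p ≠ 2 := by omega
  set g : K := gaussSum (chi p K) ψ with hg
  set xval : ZMod p → K := fun k => ∑ j ∈ range (m + 1), v j * ψ k ^ (2 * j) with hx
  set h : ZMod p → K := fun k => chi p K k * xval k with hh
  set hhat : ZMod p → K := fun i => (p : K)⁻¹ * ∑ k' : ZMod p, h k' * ψ (-(2 * i * k')) with hhh
  set a : K := aa ψ with ha
  have hhat_eq : ∀ i : ZMod p, hhat i =
      a * ∑ j ∈ range (m + 1), chi p K (i - (j : ZMod p)) * v j := by
    intro i
    have e1 : ∑ k' : ZMod p, h k' * ψ (-(2 * i * k')) =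
        ∑ j ∈ range (m + 1), v j * (chi p K (2 * ((j : ZMod p) - i)) * g) := by
      have : ∀ k' : ZMod p, h k' * ψ (-(2 * i * k')) =
          ∑ j ∈ range (m + 1), v j * (chi p K k' * ψ (2 * ((j : ZMod p) - i) * k')) := by
        intro k'
        rw [hh, hx]
        simp only
        rw [Finset.mul_sum, Finset.sum_mul]
        apply Finset.sum_congr rfl
        intro j _
        have e2 : ψ (2 * ((j : ZMod p) - i) * k') = ψ k' ^ (2 * j) * ψ (-(2 * i * k')) := by
          rw [psi_pow, ← AddChar.map_add_eq_mul]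
          congr 1
          push_cast
          ring
        rw [e2]; ring
      rw [Finset.sum_congr rfl (fun k' _ => this k'), Finset.sum_comm]
      apply Finset.sum_congr rfl
      intro j _
      rw [← Finset.mul_sum, gshift hp2 h2]
    rw [hhh]
    simp only
    rw [e1, ha, aa, Finset.mul_sum, Finset.mul_sum]
    apply Finset.sum_congr rfl
    intro j _
    have e3 : chi p K (2 * ((j : ZMod p) - i)) = chi p K (-2) * chi p K (i - (j : ZMod p)) := by
      rw [← map_mul]; congr 1; ring
    rw [e3]; ring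
  have hhat_low : ∀ i ∈ range (m + 1), hhat (i : ZMod p) =
      a * (b + (if i = 0 then b0 else 0) + (if i = m then bm else 0)) := by
    intro i hi
    rw [hhat_eq, hv i hi]
  set y : ℕ → K := fun l => hhat ((m + 1 + l : ℕ) : ZMod p) with hy
  have hinv : ∀ k : ZMod p, h k = a * (b * ∑ i ∈ range (m + 1), ψ k ^ (2 * i) + b0 + bm * ψ k ^ (2 * m)) +
      ∑ l ∈ range m, y l * ψ k ^ (2 * l + 1) := by
    intro k
    have e1 := inversion hp2 hpK ψ hψ h k
    have e2 : ∑ i : ZMod p, hhat i * ψ (2 * i * k) = h k := e1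
    rw [← e2, sum_zmod_range m hm (fun i => hhat i * ψ (2 * i * k))]
    congr 1
    · have e3 : ∀ i ∈ range (m + 1), hhat (i : ZMod p) * ψ (2 * (i : ZMod p) * k) =
          a * b * ψ k ^ (2 * i) + (if i = 0 then a * b0 else 0) + (if i = m then a * bm * ψ k ^ (2 * m) else 0) := by
        intro i hi
        rw [hhat_low i hi]
        have e4 : ψ (2 * (i : ZMod p) * k) = ψ k ^ (2 * i) := by rw [psi_pow]; push_cast; rfl
        rw [e4]
        by_cases hi0 : i = 0
        · subst hi0
          rw [if_pos rfl, if_pos rfl, if_neg (by omega), if_neg (by omega)]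
          simp; ring
        · rw [if_neg hi0, if_neg hi0]
          by_cases him : i = m
          · subst him
            rw [if_pos rfl, if_pos rfl]; ring
          · rw [if_neg him, if_neg him]; ring
      rw [Finset.sum_congr rfl e3, Finset.sum_add_distrib, Finset.sum_add_distrib, ← Finset.mul_sum,
        Finset.sum_ite_eq', Finset.sum_ite_eq', if_pos (by simp), if_pos (by simp)]
      ring
    · apply Finset.sum_congr rfl
      intro l _
      rw [psi_pow]
      congr 2
      have hp0 : ((2 * m + 1 : ℕ) : ZMod p) = 0 := by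
        rw [← hm]; simp
      push_cast at hp0 ⊢
      linear_combination k * hp0
  set F : K[X] := ∑ j ∈ range (m + 1), C (v j) * X ^ (2 * j)
    - ∑ l ∈ range m, C (y l) * X ^ (2 * l + 1) with hF
  have hFdeg : F.natDegree ≤ 2 * m := by
    rw [hF]
    refine (natDegree_sub_le_of_le (m := 2 * m) (n := 2 * m) ?_ ?_).trans (by simp)
    · apply natDegree_sum_le_of_forall_le
      intro j hj
      rw [Finset.mem_range] at hj
      exact (natDegree_C_mul_X_pow_le _ _).trans (by omega)
    · apply natDegree_sum_le_of_forall_le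
      intro j hj
      rw [Finset.mem_range] at hj
      exact (natDegree_C_mul_X_pow_le _ _).trans (by omega)
  have hRdeg := RR_deg m hm ψ hm0 b b0 bm
  set R := RR m ψ b b0 bm with hR
  have hGdeg : (F - R).natDegree ≤ 2 * m :=
    (natDegree_sub_le_of_le hFdeg hRdeg).trans (by simp)
  have hGroot : ∀ k ∈ univ.erase (0 : ZMod p), (F - R).eval (pt ψ k) = 0 := by
    intro k hk
    have hk0 : k ≠ 0 := by simpa using hk
    have e1 := chi_sq (K := K) hk0
    have e2 := hinv k
    have hψp := psi_p m hm ψ k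
    have hx0 : pt ψ k ≠ 0 := by
      intro h0
      have := pt_sq ψ hk0
      rw [h0] at this
      have h3 : ψ (2 * k) * ψ (-(2 * k)) = 1 := by rw [← AddChar.map_add_eq_mul]; simp
      rw [← this] at h3
      simp at h3
    have e3 : F.eval (pt ψ k) = xval k - chi p K k * ∑ l ∈ range m, y l * ψ k ^ (2 * l + 1) := by
      rw [hF]
      simp only [eval_sub, eval_finsetSum, eval_mul, eval_C, eval_pow, eval_X]
      rw [hx, Finset.mul_sum]
      congr 1
      · apply Finset.sum_congr rfl
        intro j _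
        rw [pt_even ψ hk0]
      · apply Finset.sum_congr rfl
        intro l _
        rw [pt_odd ψ hk0]; ring
    have e4 : xval k = chi p K k * h k := by
      rw [hh]; simp only; linear_combination (-xval k) * e1
    have e5 : R.eval (pt ψ k) = a * chi p K k * (b * ∑ i ∈ range (m + 1), ψ k ^ (2 * i) + b0 + bm * ψ k ^ (2 * m)) := by
      rw [hR, RR]
      have d0 : (divX (PP ψ)).eval (pt ψ k) * pt ψ k = - et p K := by
        have := divX_mul_X_add (PP ψ)
        have h3 := congrArg (eval (pt ψ k)) this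
        rw [eval_add, eval_mul, eval_X, eval_C, PP_root ψ hk0, PP_zero m hm] at h3
        linear_combination h3
      simp only [eval_sub, eval_mul, eval_C, eval_pow, eval_X, eval_add, PP_root ψ hk0, eval_neg,
        eval_finsetSum]
      have e6 := pt_odd ψ hk0 m
      rw [hψp, mul_one] at e6
      rw [e6]
      have e7 : ∑ i ∈ range m, pt ψ k ^ (2 * i + 1) = - (chi p K k * ∑ i ∈ range (m + 1), ψ k ^ (2 * i)) := by
        have e8 : chi p K k * ∑ i ∈ range (m + 1), ψ k ^ (2 * i) + ∑ i ∈ range m, pt ψ k ^ (2 * i + 1) =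
            chi p K k * ∑ i : ZMod p, ψ (i * (2 * k)) := by
          rw [sum_zmod_range m hm (fun i => ψ (i * (2 * k))), mul_add]
          congr 1
          · congr 1
            apply Finset.sum_congr rfl
            intro i _
            rw [psi_pow]; congr 1; push_cast; ring
          · rw [Finset.mul_sum]
            apply Finset.sum_congr rfl
            intro i _
            rw [pt_odd ψ hk0, psi_pow]
            congr 2
            have hp0 : ((2 * m + 1 : ℕ) : ZMod p) = 0 := by
              rw [← hm]; simp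
            push_cast at hp0 ⊢
            linear_combination (-k) * hp0
        have e9 : ∑ i : ZMod p, ψ (i * (2 * k)) = 0 := by
          rw [AddChar.sum_mulShift _ hψ, if_neg (mul_ne_zero (two_ne' hp2) hk0)]
          simp
        rw [e9, mul_zero] at e8
        linear_combination e8
      rw [e7]
      have e10 : (divX (PP ψ)).eval (pt ψ k) = - et p K * (chi p K k * ψ k ^ (2 * m)) := by
        apply mul_right_cancel₀ hx0
        rw [d0]
        have e11 : chi p K k * ψ k ^ (2 * m) * pt ψ k = 1 := by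
          rw [pt]
          have : ψ k ^ (2 * m) * ψ k = 1 := by rw [← pow_succ]; exact hψp
          linear_combination e1 + (chi p K k * chi p K k) * this
        linear_combination (et p K) * e11
      rw [e10]
      have hes := et_sq (p := p) (K := K)
      simp only [← ha]
      linear_combination (a * bm * chi p K k * ψ k ^ (2 * m)) * hes
    rw [eval_sub, e3, e4, e5, e2]
    ring
  refine ⟨(F - R).coeff (2 * m), y, ?_, fun l => hhat_eq _, ?_⟩
  · set β : K := (F - R).coeff (2 * m) with hβ
    have hmon := PP_top m hm ψ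
    have e1 : (F - R) - C β * PP ψ = 0 := by
      have hd : ∀ n, 2 * m - 1 < n → ((F - R) - C β * PP ψ).coeff n = 0 := by
        intro n hn
        rw [coeff_sub, coeff_C_mul]
        rcases Nat.lt_or_ge (2 * m) n with h | h
        · have e5 : (PP ψ).coeff n = 0 := PP_large m hm ψ n h
          have e6 : (F - R).coeff n = 0 := coeff_eq_zero_of_natDegree_lt (lt_of_le_of_lt hGdeg h)
          rw [e5, e6]; simp
        · have hn2 : n = 2 * m := by omega
          subst hn2
          rw [hmon]; simp [hβ]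
      have hd2 : ((F - R) - C β * PP ψ).natDegree ≤ 2 * m - 1 := natDegree_le_iff_coeff_eq_zero.mpr hd
      classical
      apply eq_zero_of_natDegree_lt_card_of_eval_eq_zero' ((F - R) - C β * PP ψ)
        ((univ.erase (0 : ZMod p)).image (pt ψ))
      · intro x hx
        rw [Finset.mem_image] at hx
        obtain ⟨k, hk, rfl⟩ := hx
        have hk0 : k ≠ 0 := by simpa using hk
        rw [eval_sub, eval_mul, hGroot k hk, PP_root ψ hk0]; simp
      · rw [Finset.card_image_of_injOn (pt_inj m hm ψ hψ), card_S m hm]; omega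
    linear_combination e1
  · have e2 := hinv 0
    have e3 : h 0 = 0 := by rw [hh]; simp only; rw [MulChar.map_zero, zero_mul]
    rw [e3] at e2
    simp only [AddChar.map_zero_eq_one, one_pow, mul_one, Finset.sum_const, Finset.card_range,
      nsmul_eq_mul] at e2
    push_cast at e2
    linear_combination -e2

end facts

end Pool.Agent.R945.TP
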