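import Mathlib
import Pool.Agent.R945.TP.F
import Pool.Agent.R945.LD.Newt

/-! Linear relations for solutions of the Toeplitz system. -/

set_option autoImplicit false
set_option linter.unusedSectionVars false

namespace Pool.Agent.R945.TP

open Finset Polynomial Pool.Agent.Helper184.Chapman Pool.Agent.R945.LD

variable {p : ℕ} [Fact p.Prime] {K : Type*} [Field K]

section
variable (m : ℕ) (hm : p = 2 * m + 1) (ψ : AddChar (ZMod p) K) (hψ : ψ.IsPrimitive)

lemma pone (n : ℕ) : (-1 : K) ^ (2 * n) = 1 := by rw [pow_mul]; simp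
lemma mone (n : ℕ) : (-1 : K) ^ (2 * n + 1) = -1 := by rw [pow_succ, pone]; simp

include hm hψ in
theorem rel (hm0 : 0 < m) (h2 : (2 : K) ≠ 0) (hpK : (p : K) ≠ 0) (v : ℕ → K) (b b0 bm : K)
    (hv : ∀ i ∈ range (m + 1), ∑ j ∈ range (m + 1), chi p K ((i : ZMod p) - (j : ZMod p)) * v j =
      b + (if i = 0 then b0 else 0) + (if i = m then bm else 0)) :
    ∃ β : K, v 0 = et p K * β + aa ψ * bm * et p K * gaussSum (chi p K) ψ ∧
      v m = β + aa ψ * b0 * gaussSum (chi p K) ψ ∧
      2 * ∑ j ∈ range (m + 1), v j = β * ((PP ψ).eval 1 + (PP ψ).eval (-1)) -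
        aa ψ * (b0 + bm * et p K) * ((PP ψ).eval 1 - (PP ψ).eval (-1)) ∧
      β * ((PP ψ).eval 1 - (PP ψ).eval (-1)) = 2 * (aa ψ * b * p) +
        aa ψ * (b0 + bm * et p K) * ((PP ψ).eval 1 + (PP ψ).eval (-1)) ∧
      aa ψ * ∑ j ∈ range (m + 1), chi p K (-1 - (j : ZMod p)) * v j =
        β * gaussSum (chi p K) ψ + aa ψ * b + aa ψ * b0 * (PP ψ).coeff (2 * m - 2) + aa ψ * bm * et p K ∧
      (b = 0 → b0 = 0 → bm = 0 → β = 0 → ∀ j ∈ range (m + 1), v j = 0) := by
  obtain ⟨β, y, hF, hy, hs⟩ := main m hm ψ hψ hm0 h2 hpK v b b0 bm hv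
  have hes := et_sq (p := p) (K := K)
  have hc1 := PP_one_coeff m hm ψ h2
  have hc0 := PP_zero m hm ψ
  have htop := PP_top m hm ψ
  have hnext := PP_next m hm ψ hm0
  have hpm : (p : K) = 2 * m + 1 := by
    have := congrArg (Nat.cast : ℕ → K) hm
    push_cast at this; exact this
  have hd1 : (divX (PP ψ)).eval 1 = (PP ψ).eval 1 - et p K := by
    have h3 := congrArg (eval 1) (divX_mul_X_add (PP ψ))
    rw [eval_add, eval_mul, eval_X, eval_C, hc0] at h3
    linear_combination h3
  have hdm : (divX (PP ψ)).eval (-1) = et p K - (PP ψ).eval (-1) := by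
    have h3 := congrArg (eval (-1)) (divX_mul_X_add (PP ψ))
    rw [eval_add, eval_mul, eval_X, eval_C, hc0] at h3
    linear_combination -h3
  have h1 := congrArg (eval 1) hF
  have hm1 := congrArg (eval (-1)) hF
  simp only [RR, eval_add, eval_sub, eval_finsetSum, eval_mul, eval_C, eval_pow, eval_X, one_pow,
    mul_one, pone, mone, hd1, hdm, eval_neg, Finset.sum_const, Finset.card_range, nsmul_eq_mul] at h1 hm1
  rw [← Finset.sum_mul] at hm1
  have hve : ∀ i ∈ range (m + 1), v i = β * (PP ψ).coeff (2 * i) + (RR m ψ b b0 bm).coeff (2 * i) := by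
    intro i hi
    have h3 := congrArg (fun q : K[X] => q.coeff (2 * i)) hF
    change coeff _ (2 * i) = coeff _ (2 * i) at h3
    rw [coeff_sub, finsetSum_coeff, finsetSum_coeff] at h3
    simp only [coeff_C_mul_X_pow] at h3
    rw [Finset.sum_eq_single i (by intro b _ hb; rw [if_neg (by omega)])
      (by intro h; exact absurd hi h)] at h3
    rw [Finset.sum_eq_zero (s := range m) (by intro l _; rw [if_neg (by omega)])] at h3
    rw [if_pos rfl, sub_zero, coeff_add, coeff_C_mul] at h3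
    exact h3
  have hRe : ∀ i, (RR m ψ b b0 bm).coeff (2 * i) = aa ψ * b0 * (0 - (X * PP ψ).coeff (2 * i))
      - aa ψ * bm * et p K * (PP ψ).coeff (2 * i + 1) := by
    intro i
    rw [RR, coeff_sub, coeff_add, coeff_C_mul, coeff_C_mul, coeff_divX, coeff_sub, coeff_X_pow,
      if_neg (by omega), ← C_neg, coeff_C_mul, finsetSum_coeff, Finset.sum_eq_zero]
    · ring
    · intro l _
      rw [coeff_X_pow, if_neg (by omega)]
  refine ⟨β, ?_, ?_, ?_, ?_, ?_, ?_⟩
  · rw [hve 0 (by simp), hRe, mul_zero, zero_add, hc0, hc1, mul_coeff_zero, coeff_X_zero, zero_mul]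
    ring
  · rw [hve m (by simp), hRe, htop, PP_large m hm ψ _ (by omega)]
    rw [show 2 * m = (2 * m - 1) + 1 by omega, coeff_X_mul, hnext]
    ring
  · linear_combination h1 + hm1
  · linear_combination (-1 : K) * h1 + hm1 - 2 * hs - 2 * aa ψ * b * hpm - 2 * aa ψ * bm * hes
  · have hl := hy (m - 1)
    have e1 : ((m + 1 + (m - 1) : ℕ) : ZMod p) = -1 := by
      have h3 : m + 1 + (m - 1) + 1 = p := by omega
      have h4 := congrArg (Nat.cast : ℕ → ZMod p) h3
      rw [ZMod.natCast_self] at h4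
      push_cast at h4 ⊢
      linear_combination h4
    rw [e1] at hl
    rw [← hl]
    have h3 := congrArg (fun q : K[X] => q.coeff (2 * (m - 1) + 1)) hF
    change coeff _ (2 * (m - 1) + 1) = coeff _ (2 * (m - 1) + 1) at h3
    rw [coeff_sub, finsetSum_coeff, finsetSum_coeff] at h3
    simp only [coeff_C_mul_X_pow] at h3
    rw [Finset.sum_eq_zero (s := range (m + 1)) (by intro l _; rw [if_neg (by omega)])] at h3
    rw [Finset.sum_eq_single (m - 1) (by intro b _ hb; rw [if_neg (by omega)])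
      (by intro h; exfalso; apply h; rw [Finset.mem_range]; omega)] at h3
    rw [if_pos rfl, coeff_add, coeff_C_mul, RR, coeff_sub, coeff_add, coeff_C_mul, coeff_C_mul,
      coeff_divX, coeff_sub, coeff_X_pow, if_neg (by omega), ← C_neg, coeff_C_mul, finsetSum_coeff] at h3
    simp only [coeff_X_pow] at h3
    rw [Finset.sum_eq_single (m - 1) (by intro b _ hb; rw [if_neg (by omega)])
      (by intro h; exfalso; apply h; rw [Finset.mem_range]; omega), if_pos rfl, coeff_X_mul,
      show 2 * (m - 1) + 1 = 2 * m - 1 by omega, show 2 * m - 1 + 1 = 2 * m by omega, htop, hnext,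
      show 2 * (m - 1) = 2 * m - 2 by omega] at h3
    linear_combination -h3
  · intro hb hb0 hbm hβ i hi
    rw [hve i hi, hRe, hβ, hb0, hbm]
    ring

lemma ag (hp2 : p ≠ 2) (h2 : (2 : K) ≠ 0) (hpK : (p : K) ≠ 0) (hψ : ψ.IsPrimitive) :
    aa ψ * gaussSum (chi p K) ψ = chi p K 2 := by
  have h := gsq hp2 h2 ψ hψ
  have h3 : chi p K (-2) = et p K * chi p K 2 := chi_neg' 2
  have hes := et_sq (p := p) (K := K)
  rw [aa, h3]
  field_simp
  linear_combination (et p K * chi p K 2) * h + (chi p K 2 * p) * hes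

lemma ap (hpK : (p : K) ≠ 0) : aa ψ * p = et p K * chi p K 2 * gaussSum (chi p K) ψ := by
  have h3 : chi p K (-2) = et p K * chi p K 2 := chi_neg' 2
  rw [aa, h3]
  field_simp

include hm hψ in
lemma PP_second [CharZero K] (hm2 : 2 ≤ m) :
    2 * (PP ψ).coeff (2 * m - 2) = et p K * p + 1 := by
  have hp2 : p ≠ 2 := by omega
  have h2 : (2 : K) ≠ 0 := two_ne_zero
  have hcard : Fintype.card {k : ZMod p // k ≠ 0} = 2 * m := by
    rw [← card_S m hm, Fintype.card_subtype]
    congr 1
    ext x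
    simp
  have e1 : PP ψ = ∏ k : {k : ZMod p // k ≠ 0}, (X - C (pt ψ k)) := by
    rw [PP]
    apply Finset.prod_subtype
    intro x
    simp
  have e2 : ∀ f : ZMod p → K, ∑ k ∈ univ.erase (0 : ZMod p), f k = ∑ k : {k : ZMod p // k ≠ 0}, f k := by
    intro f
    apply Finset.sum_subtype
    intro x
    simp
  have h := (newton3 (fun k : {k : ZMod p // k ≠ 0} => pt ψ k) (2 * m) hcard (by omega)).2.1
  rw [← e1, ← e2 (fun k => pt ψ k), ← e2 (fun k => pt ψ k ^ 2)] at h
  have p1 : ∑ k ∈ univ.erase (0 : ZMod p), pt ψ k = gaussSum (chi p K) ψ := by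
    rw [gaussSum, ← Finset.add_sum_erase univ _ (Finset.mem_univ (0 : ZMod p)), MulChar.map_zero]
    simp [pt]
  have p2 : ∑ k ∈ univ.erase (0 : ZMod p), pt ψ k ^ 2 = -1 := by
    have e : ∀ k ∈ univ.erase (0 : ZMod p), pt ψ k ^ 2 = ψ (k * 2) := by
      intro k hk
      have hk0 : k ≠ 0 := by simpa using hk
      rw [pt_sq ψ hk0, mul_comm]
    rw [Finset.sum_congr rfl e]
    have h := AddChar.sum_mulShift (2 : ZMod p) hψ
    rw [if_neg (two_ne' hp2), ← Finset.add_sum_erase univ _ (Finset.mem_univ (0 : ZMod p))] at h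
    rw [zero_mul, AddChar.map_zero_eq_one] at h
    push_cast at h
    linear_combination h
  rw [h, p1, p2, gsq hp2 h2 ψ hψ]
  ring

end

end Pool.Agent.R945.TP
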