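import Mathlib
import Pool.Agent.R945.TP.G
import Pool.Agent.R945.LD.BThree

/-! Unimodularity for the Toeplitz matrix of order `(p+1)/2`, `p ≡ 1 (mod 4)`. -/

set_option autoImplicit false
set_option linter.unusedSectionVars false

namespace Pool.Agent.R945.TP

open Finset Pool.Agent.Helper184.Chapman

variable {p : ℕ} [Fact p.Prime]

/-- the matrix `χ(i-j) + x` -/
noncomputable def TX (p : ℕ) [Fact p.Prime] (R : Type*) [CommRing R] (n : ℕ) (x : R) :
    Matrix (Fin n) (Fin n) R :=
  Matrix.of fun i j => T p R n i j + x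

lemma TX_zero (R : Type*) [CommRing R] (n : ℕ) : TX p R n 0 = T p R n := by
  ext i j; simp [TX]

lemma TX_mulVec (R : Type*) [CommRing R] (n : ℕ) (x : R) (v : Fin n → R) (i : Fin n) :
    (TX p R n x).mulVec v i = (T p R n).mulVec v i + x * ∑ j, v j := by
  simp only [Matrix.mulVec, dotProduct, TX, Matrix.of_apply, add_mul, Finset.sum_add_distrib,
    Finset.mul_sum]

lemma TX_map {R S : Type*} [CommRing R] [CommRing S] (f : R →+* S) (n : ℕ) (x : R) :
    (TX p R n x).map f = TX p S n (f x) := by
  ext i j; simp [TX, T]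

lemma TX_det_map {R S : Type*} [CommRing R] [CommRing S] (f : R →+* S) (n : ℕ) (x : R) :
    f (TX p R n x).det = (TX p S n (f x)).det := by
  rw [f.map_det, RingHom.mapMatrix_apply, TX_map]

section
variable {K : Type*} [Field K] (m : ℕ) (hm : p = 2 * m + 1)

lemma ext_sum (n : ℕ) (v : Fin n → K) : ∑ j ∈ range n, ext v j = ∑ j, v j := by
  rw [← Fin.sum_univ_eq_sum_range (fun j => ext v j)]
  exact Finset.sum_congr rfl (fun j _ => ext_val v j)

lemma sys_of (n : ℕ) (v : Fin n → K) (B : ℕ → K) (h : ∀ i : Fin n, (T p K n).mulVec v i = B i) :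
    ∀ i ∈ range n, ∑ j ∈ range n, chi p K ((i : ZMod p) - (j : ZMod p)) * ext v j = B i := by
  intro i hi
  rw [Finset.mem_range] at hi
  have := h ⟨i, hi⟩
  rw [mulVec_eq] at this
  exact this

include hm in
lemma pair_aux (hm0 : 0 < m) (h2 : (2 : K) ≠ 0) (hpK : (p : K) ≠ 0) (ψ : AddChar (ZMod p) K)
    (hψ : ψ.IsPrimitive) (v v' : Fin (m + 1) → K) (hv0 : v ≠ 0) (hv : (T p K (m + 1)).mulVec v = 0)
    (hv0' : v' ≠ 0) (hv' : (TX p K (m + 1) 1).mulVec v' = 0) : False := by
  have hp2 : p ≠ 2 := by omega
  have ha : aa ψ ≠ 0 := by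
    intro h0
    have := ag ψ hp2 h2 hpK hψ
    rw [h0, zero_mul] at this
    have h3 := chi_sq (p := p) (K := K) (k := 2) (two_ne' hp2)
    rw [← this] at h3
    simp at h3
  obtain ⟨β, r1, r2, r3, r4, r5, r6⟩ := rel m hm ψ hψ hm0 h2 hpK (ext v) 0 0 0
    (by
      apply sys_of
      intro i
      rw [hv]; simp)
  have hβ : β ≠ 0 := by
    intro h0
    apply hv0
    funext j
    have := r6 rfl rfl rfl h0 j (Finset.mem_range.mpr j.2)
    rwa [ext_val] at this
  have h4 : (Polynomial.eval 1 (LD.PP ψ) - Polynomial.eval (-1) (LD.PP ψ)) = 0 := by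
    have : β * (Polynomial.eval 1 (LD.PP ψ) - Polynomial.eval (-1) (LD.PP ψ)) = 0 := by
      rw [r4]; ring
    exact (mul_eq_zero.mp this).resolve_left hβ
  set σ := ∑ j, v' j with hσ
  obtain ⟨β', s1, s2, s3, s4, s5, s6⟩ := rel m hm ψ hψ hm0 h2 hpK (ext v') (-σ) 0 0
    (by
      apply sys_of
      intro i
      have := congrFun hv' i
      rw [TX_mulVec] at this
      simp only [Pi.zero_apply] at this
      simp
      linear_combination this)
  rw [h4, mul_zero] at s4
  have hσ0 : σ = 0 := by
    have : (2 * aa ψ * p) * σ = 0 := by linear_combination s4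
    rcases mul_eq_zero.mp this with h | h
    · exfalso
      rcases mul_eq_zero.mp h with h | h
      · rcases mul_eq_zero.mp h with h | h
        · exact h2 h
        · exact ha h
      · exact hpK h
    · exact h
  have hβ' : β' ≠ 0 := by
    intro h0
    apply hv0'
    funext j
    have := s6 (by rw [hσ0]; simp) rfl rfl h0 j (Finset.mem_range.mpr j.2)
    rwa [ext_val] at this
  rw [ext_sum, ← hσ, hσ0, h4] at s3
  have h5 : (Polynomial.eval 1 (LD.PP ψ) + Polynomial.eval (-1) (LD.PP ψ)) = 0 := by
    have : β' * (Polynomial.eval 1 (LD.PP ψ) + Polynomial.eval (-1) (LD.PP ψ)) = 0 := by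
      linear_combination -s3
    exact (mul_eq_zero.mp this).resolve_left hβ'
  have h6 : 2 * Polynomial.eval 1 (LD.PP ψ) = 0 := by linear_combination h4 + h5
  have h7 : Polynomial.eval 1 (LD.PP ψ) = 0 := (mul_eq_zero.mp h6).resolve_left h2
  have h8 := PP_prod m hm ψ hψ
  rw [h7, zero_mul] at h8
  exact hpK h8.symm

include hm in
/-- no prime other than `2` and `p` divides both determinants -/
lemma pair (hm0 : 0 < m) (l : ℕ) [Fact l.Prime] (hl2 : l ≠ 2) (hlp : l ≠ p)
    (h0 : (l : ℤ) ∣ (T p ℤ (m + 1)).det) (h1 : (l : ℤ) ∣ (TX p ℤ (m + 1) 1).det) : False := by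
  have hp : p.Prime := Fact.out
  have hl : l.Prime := Fact.out
  have h2 : (2 : ZMod l) ≠ 0 := two_ne' hl2
  have hpl : (p : ZMod l) ≠ 0 := by
    intro h
    rw [ZMod.natCast_eq_zero_iff] at h
    exact hlp ((Nat.prime_dvd_prime_iff_eq hl hp).mp h)
  let pp : ℕ+ := ⟨p, hp.pos⟩
  have hpp : ((pp : ℕ) : ZMod l) ≠ 0 := hpl
  let Ψ := AddChar.primitiveZModChar pp (ZMod l) hpp
  let L := CyclotomicField Ψ.n (ZMod l)
  let f : ZMod l →+* L := algebraMap (ZMod l) L
  have hf : Function.Injective f := f.injective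
  have h2L : (2 : L) ≠ 0 := by
    intro h
    apply h2
    apply hf
    rw [map_zero, ← h]
    exact map_ofNat f 2
  have hpL : (p : L) ≠ 0 := by
    intro h
    apply hpl
    apply hf
    rw [map_zero, ← h]
    exact map_natCast f p
  have hdvd : ∀ (x : ℤ), (l : ℤ) ∣ (TX p ℤ (m + 1) x).det → (TX p L (m + 1) (x : L)).det = 0 := by
    intro x hx
    have h3 := TX_det_map (p := p) (Int.castRingHom L) (m + 1) x
    rw [eq_intCast, eq_intCast] at h3
    rw [← h3]
    obtain ⟨k, hk⟩ := hx
    rw [hk]
    push_cast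
    have : ((l : ℕ) : L) = 0 := by
      have h4 : f ((l : ℕ) : ZMod l) = ((l : ℕ) : L) := map_natCast f l
      rw [← h4, ZMod.natCast_self, map_zero]
    rw [this, zero_mul]
  have d0 := hdvd 0 (by rw [TX_zero]; exact h0)
  rw [Int.cast_zero, TX_zero] at d0
  have d1 := hdvd 1 h1
  rw [Int.cast_one] at d1
  obtain ⟨v, hv0, hv⟩ := Matrix.exists_mulVec_eq_zero_iff.mpr d0
  obtain ⟨v', hv0', hv'⟩ := Matrix.exists_mulVec_eq_zero_iff.mpr d1
  exact pair_aux m hm hm0 h2L hpL Ψ.char Ψ.prim v v' hv0 hv hv0' hv'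

include hm in
/-- the matrix is invertible modulo `p` -/
lemma det_mod_p (hm0 : 0 < m) : ¬ (p : ℤ) ∣ (T p ℤ (m + 1)).det := by
  have hp2 : p ≠ 2 := by omega
  have hp : p.Prime := Fact.out
  intro h0
  have hd : (T p (ZMod p) (m + 1)).det = 0 := by
    have h1 := TX_det_map (p := p) (Int.castRingHom (ZMod p)) (m + 1) 0
    rw [map_zero, TX_zero, TX_zero] at h1
    rw [← h1, eq_intCast]
    exact (ZMod.intCast_zmod_eq_zero_iff_dvd _ _).mpr h0
  obtain ⟨vv, hv0, hvv⟩ := Matrix.exists_mulVec_eq_zero_iff.mpr hd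
  apply hv0
  set v : ℕ → ZMod p := ext vv with hvdef
  have hv : ∀ i ∈ range (m + 1),
      ∑ j ∈ range (m + 1), chi p (ZMod p) ((i : ZMod p) - (j : ZMod p)) * v j = 0 := by
    apply sys_of (m + 1) vv (fun _ => 0)
    intro i; rw [hvv]; rfl
  have key : ∀ j ∈ range (m + 1), v j = 0 := by
    have hchi : ∀ a : ZMod p, chi p (ZMod p) a = a ^ m := by
      intro a
      rw [chi_apply, quadraticChar_eq_pow_of_char_ne_two' (by rw [ZMod.ringChar_zmod_n]; exact hp2),
        ZMod.card]
      congr 1
      omega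
    set f : Polynomial (ZMod p) := ∑ j ∈ range (m + 1), Polynomial.C (v j) * (Polynomial.X - Polynomial.C (j : ZMod p)) ^ m with hf
    have hfdeg : f.natDegree ≤ m := by
      rw [hf]
      apply Polynomial.natDegree_sum_le_of_forall_le
      intro j _
      refine (Polynomial.natDegree_C_mul_le _ _).trans ?_
      rw [Polynomial.natDegree_pow, Polynomial.natDegree_X_sub_C, mul_one]
    have hinj : Set.InjOn (fun i : ℕ => (i : ZMod p)) (range (m + 1)) := by
      intro i hi j hj h
      rw [Finset.mem_coe, Finset.mem_range] at hi hj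
      have := congrArg ZMod.val h
      simp only at this
      rwa [ZMod.val_natCast_of_lt (by omega), ZMod.val_natCast_of_lt (by omega)] at this
    have hf0 : f = 0 := by
      apply Polynomial.eq_zero_of_natDegree_lt_card_of_eval_eq_zero' f
        ((range (m + 1)).image (fun i : ℕ => (i : ZMod p)))
      · intro x hx
        rw [Finset.mem_image] at hx
        obtain ⟨i, hi, rfl⟩ := hx
        have := hv i hi
        rw [hf, Polynomial.eval_finsetSum]
        rw [← this]
        apply Finset.sum_congr rfl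
        intro j _
        rw [hchi]
        simp
        ring
      · rw [Finset.card_image_of_injOn hinj, Finset.card_range]; omega
    have hmom : ∀ s ∈ range (m + 1), ∑ j ∈ range (m + 1), v j * (j : ZMod p) ^ s = 0 := by
      intro s hs
      rw [Finset.mem_range] at hs
      have h := congrArg (fun q => q.coeff (m - s)) hf0
      simp only [Polynomial.coeff_zero] at h
      rw [hf, Polynomial.finsetSum_coeff] at h
      have e : ∀ j ∈ range (m + 1), (Polynomial.C (v j) * (Polynomial.X - Polynomial.C (j : ZMod p)) ^ m).coeff (m - s) =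
          ((-1) ^ s * (m.choose (m - s) : ZMod p)) * (v j * (j : ZMod p) ^ s) := by
        intro j _
        rw [Polynomial.coeff_C_mul, sub_eq_add_neg, ← Polynomial.C_neg, Polynomial.coeff_X_add_C_pow]
        have : m - (m - s) = s := by omega
        rw [this, neg_pow]
        ring
      rw [Finset.sum_congr rfl e, ← Finset.mul_sum] at h
      rcases mul_eq_zero.mp h with h | h
      · exfalso
        rcases mul_eq_zero.mp h with h | h
        · exact pow_ne_zero s (by simp) h
        · rw [ZMod.natCast_eq_zero_iff] at h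
          have h5 : m.choose (m - s) ∣ m.factorial := by
            have := Nat.choose_mul_factorial_mul_factorial (n := m) (k := m - s) (by omega)
            exact ⟨(m - s).factorial * (m - (m - s)).factorial, by rw [← this]; ring⟩
          have h6 := (hp.dvd_factorial).mp (h.trans h5)
          omega
      · exact h
    have hvan := Matrix.eq_zero_of_forall_pow_sum_mul_pow_eq_zero
      (f := fun j : Fin (m + 1) => ((j : ℕ) : ZMod p)) (v := fun j : Fin (m + 1) => v j)
      (by
        intro i j h
        simp only at h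
        have := congrArg ZMod.val h
        rw [ZMod.val_natCast_of_lt (by omega), ZMod.val_natCast_of_lt (by omega)] at this
        exact Fin.ext this)
      (by
        intro i
        have := hmom i (Finset.mem_range.mpr i.2)
        rw [← Fin.sum_univ_eq_sum_range (fun j => v j * (j : ZMod p) ^ (i : ℕ))] at this
        exact this)
    intro j hj
    rw [Finset.mem_range] at hj
    exact congrFun hvan ⟨j, hj⟩
  funext j
  have := key j (Finset.mem_range.mpr j.2)
  rwa [hvdef, ext_val] at this

include hm in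
/-- congruences modulo four -/
lemma TX_mod_four (h1 : p % 4 = 1) : (4 : ℤ) ∣ (TX p ℤ (m + 1) 1).det - 1 ∧
    (4 : ℤ) ∣ (TX p ℤ (m + 1) (-1)).det + 1 := by
  have hpm : ∀ a : ZMod p, a ≠ 0 → quadraticChar (ZMod p) a = 1 ∨ quadraticChar (ZMod p) a = -1 :=
    fun a ha => quadraticChar_dichotomy ha
  have hne : ∀ i j : Fin (m + 1), i ≠ j → ((i.val : ZMod p) - (j.val : ZMod p)) ≠ 0 := by
    intro i j hij h
    have h2 := sub_eq_zero.mp h
    have := congrArg ZMod.val h2
    rw [ZMod.val_natCast_of_lt (by omega), ZMod.val_natCast_of_lt (by omega)] at this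
    exact hij (Fin.ext this)
  constructor
  · have h := LD.det_mod_four (TX p ℤ (m + 1) 1) (by
      intro i j hij
      simp only [TX, T, Matrix.of_apply, Int.cast_id]
      rcases hpm _ (hne i j hij) with h | h <;> rw [h] <;> norm_num)
    have h2 : ∏ i, TX p ℤ (m + 1) 1 i i = 1 := by
      apply Finset.prod_eq_one
      intro i _
      simp [TX, T]
    rwa [h2] at h
  · have h := LD.det_mod_four (-(TX p ℤ (m + 1) (-1))) (by
      intro i j hij
      simp only [TX, T, Matrix.of_apply, Int.cast_id, Matrix.neg_apply]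
      rcases hpm _ (hne i j hij) with h | h <;> rw [h] <;> norm_num)
    have h2 : ∏ i, (-(TX p ℤ (m + 1) (-1))) i i = 1 := by
      apply Finset.prod_eq_one
      intro i _
      simp [TX, T]
    rw [h2, Matrix.det_neg, Fintype.card_fin] at h
    have h3 : (-1 : ℤ) ^ (m + 1) = -1 := by
      apply Odd.neg_one_pow
      rw [Nat.odd_iff]; omega
    rw [h3] at h
    omega

end

end Pool.Agent.R945.TP
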