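import Mathlib
import Pool.Agent.R945.TP.G
import Pool.Agent.R945.RQ.E
import Pool.Agent.R945.LD.Base

/-! Values of the polynomial at `±1`, `p ≡ 1 (mod 4)`. -/

set_option autoImplicit false
set_option linter.unusedSectionVars false

namespace Pool.Agent.R945.TP

open Finset Pool.Agent.Helper184.Chapman

variable {p : ℕ} [Fact p.Prime]

/-- folding a product along `k ↦ -k` -/
lemma prod_fold {M : Type*} [CommMonoid M] (m : ℕ) (hm : p = 2 * m + 1) (f : ZMod p → M) :
    ∏ k ∈ univ.erase (0 : ZMod p), f k = ∏ j : Fin m, (f (((j : ℕ) : ZMod p) + 1) * f (-(((j : ℕ) : ZMod p) + 1))) := by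
  have h := LD.sum_half (M := Additive M) m hm (fun x => Additive.ofMul (if x = 0 then 1 else f x))
  have h2 := congrArg Additive.toMul h
  rw [toMul_sum, toMul_add, toMul_sum] at h2
  have hne : ∀ j : Fin m, (((j : ℕ) : ZMod p) + 1) ≠ 0 := by
    intro j h0
    have h3 : ((j.val + 1 : ℕ) : ZMod p) = 0 := by push_cast; exact h0
    rw [ZMod.natCast_eq_zero_iff] at h3
    have := Nat.le_of_dvd (by omega) h3
    omega
  have h4 : ∏ x : ZMod p, (if x = 0 then 1 else f x) = ∏ k ∈ univ.erase (0 : ZMod p), f k := by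
    rw [← Finset.mul_prod_erase univ _ (Finset.mem_univ (0 : ZMod p)), if_pos rfl, one_mul]
    apply Finset.prod_congr rfl
    intro k hk
    rw [if_neg (by simpa using hk)]
  rw [← h4]
  refine h2.trans ?_
  have h5 : ((Additive.ofMul (if (0 : ZMod p) = 0 then (1 : M) else f 0)).toMul) = 1 := by simp
  rw [h5, one_mul]
  apply Finset.prod_congr rfl
  intro j _
  have h6 : (-(((j : ℕ) : ZMod p) + 1)) ≠ 0 := neg_ne_zero.mpr (hne j)
  show (if (((j : ℕ) : ZMod p) + 1) = 0 then (1 : M) else f _) * (if (-(((j : ℕ) : ZMod p) + 1)) = 0 then (1 : M) else f _) = _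
  rw [if_neg (hne j), if_neg h6]

lemma prod_norm (m : ℕ) (hm : p = 2 * m + 1) (z : ZMod p → ℂ) (hz : ∀ k, z (-k) = (starRingEnd ℂ) (z k)) :
    ∏ k ∈ univ.erase (0 : ZMod p), z k = ((∏ k ∈ univ.erase (0 : ZMod p), ‖z k‖ : ℝ) : ℂ) := by
  rw [prod_fold m hm z, prod_fold m hm (fun k => ‖z k‖), Complex.ofReal_prod]
  apply Finset.prod_congr rfl
  intro j _
  rw [hz, Complex.mul_conj, Complex.norm_conj, Complex.normSq_eq_norm_sq]
  push_cast
  ring

/-- the standard additive character -/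
noncomputable def sc (p : ℕ) [Fact p.Prime] : AddChar (ZMod p) ℂ := ZMod.stdAddChar (N := p)

lemma sc_prim : (sc p).IsPrimitive := ZMod.isPrimitive_stdAddChar p

lemma sc_conj (k : ZMod p) : sc p (-k) = (starRingEnd ℂ) (sc p k) := by
  rw [AddChar.map_neg_eq_conj]

section one

variable (h1 : p % 4 = 1)
include h1

lemma et_one {K : Type*} [Field K] : et p K = 1 := by
  have hp2 : p ≠ 2 := by rintro rfl; omega
  rw [et, chi_apply, quadraticChar_neg_one (by rw [ZMod.ringChar_zmod_n]; exact hp2), ZMod.card,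
    ZMod.χ₄_nat_one_mod_four h1]
  simp

lemma g_eq : gaussSum (chi p ℂ) (sc p) = ((Real.sqrt p : ℝ) : ℂ) := RQ.gauss_eq h1

lemma P_norm (m : ℕ) (hm : p = 2 * m + 1) :
    (LD.PP (sc p)).eval 1 =
      ((∏ k ∈ univ.erase (0 : ZMod p), ‖1 - LD.pt (sc p) k‖ : ℝ) : ℂ) ∧
    (LD.PP (sc p)).eval (-1) =
      ((∏ k ∈ univ.erase (0 : ZMod p), ‖1 + LD.pt (sc p) k‖ : ℝ) : ℂ) := by
  have hpt : ∀ k, LD.pt (sc p) (-k) = (starRingEnd ℂ) (LD.pt (sc p) k) := by
    intro k
    rw [LD.pt, LD.pt, chi_neg', et_one h1, one_mul, sc_conj, map_mul]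
    congr 1
    rw [chi_apply]
    simp
  constructor
  · rw [← prod_norm m hm]
    · rw [LD.PP, Polynomial.eval_prod]; simp
    · intro k; rw [hpt]; simp
  · rw [← prod_norm m hm]
    · rw [LD.PP, Polynomial.eval_prod]
      have : ∀ k ∈ univ.erase (0 : ZMod p), Polynomial.eval (-1) (Polynomial.X - Polynomial.C (LD.pt (sc p) k)) =
          (-1) * (1 + LD.pt (sc p) k) := by
        intro k _
        simp only [Polynomial.eval_sub, Polynomial.eval_X, Polynomial.eval_C]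
        ring
      rw [Finset.prod_congr rfl this, Finset.prod_mul_distrib, Finset.prod_const, LD.card_S m hm]
      simp
    · intro k; rw [hpt]; simp

/-- residues and nonresidues -/
noncomputable def Rs (p : ℕ) [Fact p.Prime] : Finset (ZMod p) := univ.filter (fun j : ZMod p => quadraticChar (ZMod p) j = 1)
noncomputable def Ns (p : ℕ) [Fact p.Prime] : Finset (ZMod p) := univ.filter (fun j : ZMod p => quadraticChar (ZMod p) j = -1)

omit h1 in
lemma erase_eq : univ.erase (0 : ZMod p) = Rs p ∪ Ns p := by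
  ext j
  simp only [Finset.mem_erase, Finset.mem_univ, and_true, Finset.mem_union, Rs, Ns,
    Finset.mem_filter, true_and]
  constructor
  · exact fun h => quadraticChar_dichotomy h
  · rintro (h | h) rfl <;> rw [MulChar.map_zero] at h <;> norm_num at h

omit h1 in
lemma disj : Disjoint (Rs p) (Ns p) := by
  rw [Finset.disjoint_left]
  intro j hj hj'
  rw [Rs, Finset.mem_filter] at hj
  rw [Ns, Finset.mem_filter] at hj'
  rw [hj.2] at hj'
  have := hj'.2
  norm_num at this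

omit h1 in
lemma prod_split (f : ZMod p → ℝ) : ∏ k ∈ univ.erase (0 : ZMod p), f k = (∏ k ∈ Rs p, f k) * ∏ k ∈ Ns p, f k := by
  rw [erase_eq, Finset.prod_union disj]

omit h1 in
lemma nz {k : ZMod p} (hk : k ≠ 0) : 0 < ‖1 - sc p k‖ := by
  rw [norm_pos_iff, sub_ne_zero]
  intro h
  exact hk ((sc_prim.zmod_char_eq_one_iff p k).mp h.symm)

omit h1 in
lemma plus_eq (hp2 : p ≠ 2) (s : Finset (ZMod p)) (hs : ∀ k ∈ s, k ≠ 0) :
    ∏ k ∈ s, ‖1 + sc p k‖ = (∏ k ∈ s, ‖1 - sc p (2 * k)‖) / ∏ k ∈ s, ‖1 - sc p k‖ := by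
  rw [← Finset.prod_div_distrib]
  apply Finset.prod_congr rfl
  intro k hk
  have h0 := (nz (hs k hk)).ne'
  rw [eq_div_iff h0, ← norm_mul]
  congr 1
  have : sc p (2 * k) = sc p k * sc p k := by rw [← AddChar.map_add_eq_mul]; congr 1; ring
  rw [this]; ring

omit h1 in
lemma shift_two (hp2 : p ≠ 2) (c : ℤ) (f : ZMod p → ℝ) :
    ∏ k ∈ univ.filter (fun j : ZMod p => quadraticChar (ZMod p) j = c), f (2 * k) =
      ∏ k ∈ univ.filter (fun j : ZMod p => quadraticChar (ZMod p) j = quadraticChar (ZMod p) 2 * c), f k := by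
  have h2 : (2 : ZMod p) ≠ 0 := two_ne' hp2
  have h3 : quadraticChar (ZMod p) 2 * quadraticChar (ZMod p) 2 = 1 := by
    have := quadraticChar_sq_one (F := ZMod p) h2
    rwa [sq] at this
  apply Finset.prod_bij (fun k _ => 2 * k)
  · intro k hk
    rw [Finset.mem_filter] at hk ⊢
    refine ⟨Finset.mem_univ _, ?_⟩
    rw [map_mul, hk.2]
  · intro k _ l _ h; exact mul_left_cancel₀ h2 h
  · intro k hk
    rw [Finset.mem_filter] at hk
    refine ⟨2⁻¹ * k, ?_, ?_⟩
    · rw [Finset.mem_filter]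
      refine ⟨Finset.mem_univ _, ?_⟩
      have h4 : quadraticChar (ZMod p) (2 * (2⁻¹ * k)) = quadraticChar (ZMod p) 2 * quadraticChar (ZMod p) (2⁻¹ * k) :=
        map_mul _ _ _
      rw [← mul_assoc, mul_inv_cancel₀ h2, one_mul, hk.2] at h4
      linear_combination (quadraticChar (ZMod p) (2⁻¹ * k)) * (-h3) + (-quadraticChar (ZMod p) 2) * h4 + c * h3
    · rw [← mul_assoc, mul_inv_cancel₀ h2, one_mul]
  · intro k _; rfl

/-- the values at `±1` -/
theorem P_values (m : ℕ) (hm : p = 2 * m + 1) (H : ℝ) (hH : 0 < H)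
    (hR : ∏ j ∈ Rs p, ‖1 - sc p j‖ = Real.sqrt p * H⁻¹) (hN : ∏ j ∈ Ns p, ‖1 - sc p j‖ = Real.sqrt p * H)
    (E : ℝ) (hE : E = if quadraticChar (ZMod p) 2 = 1 then H else H ^ 3) :
    (LD.PP (sc p)).eval 1 = ((Real.sqrt p * E⁻¹ : ℝ) : ℂ) ∧
    (LD.PP (sc p)).eval (-1) = ((Real.sqrt p * E : ℝ) : ℂ) := by
  have hp : p.Prime := Fact.out
  have hp2 : p ≠ 2 := by rintro rfl; omega
  obtain ⟨a1, a2⟩ := P_norm h1 m hm
  rw [a1, a2]
  have hp0 : (0 : ℝ) < p := by exact_mod_cast hp.pos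
  have hs0 : 0 < Real.sqrt p := Real.sqrt_pos.2 hp0
  have hRs0 : ∀ k ∈ Rs p, k ≠ 0 := by
    rintro k hk rfl
    rw [Rs, Finset.mem_filter, MulChar.map_zero] at hk
    exact zero_ne_one hk.2
  have hNs0 : ∀ k ∈ Ns p, k ≠ 0 := by
    rintro k hk rfl
    rw [Ns, Finset.mem_filter, MulChar.map_zero] at hk
    have := hk.2
    norm_num at this
  have b1 : ∀ k ∈ Rs p, LD.pt (sc p) k = sc p k := by
    intro k hk
    rw [Rs, Finset.mem_filter] at hk
    rw [LD.pt, chi_apply, hk.2]; simp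
  have b2 : ∀ k ∈ Ns p, LD.pt (sc p) k = - sc p k := by
    intro k hk
    rw [Ns, Finset.mem_filter] at hk
    rw [LD.pt, chi_apply, hk.2]; simp
  have c1 : ∏ k ∈ univ.erase (0 : ZMod p), ‖1 - LD.pt (sc p) k‖ =
      (∏ k ∈ Rs p, ‖1 - sc p k‖) * ∏ k ∈ Ns p, ‖1 + sc p k‖ := by
    rw [prod_split]
    congr 1
    · exact Finset.prod_congr rfl (fun k hk => by rw [b1 k hk])
    · exact Finset.prod_congr rfl (fun k hk => by rw [b2 k hk, sub_neg_eq_add])
  have c2 : ∏ k ∈ univ.erase (0 : ZMod p), ‖1 + LD.pt (sc p) k‖ =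
      (∏ k ∈ Rs p, ‖1 + sc p k‖) * ∏ k ∈ Ns p, ‖1 - sc p k‖ := by
    rw [prod_split]
    congr 1
    · exact Finset.prod_congr rfl (fun k hk => by rw [b1 k hk])
    · exact Finset.prod_congr rfl (fun k hk => by rw [b2 k hk, ← sub_eq_add_neg])
  rw [c1, c2, plus_eq hp2 _ hRs0, plus_eq hp2 _ hNs0, hR, hN]
  have d1 := shift_two hp2 1 (fun k => ‖1 - sc p k‖)
  have d2 := shift_two hp2 (-1) (fun k => ‖1 - sc p k‖)
  rcases quadraticChar_dichotomy (two_ne' hp2) with h | h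
  · rw [h, one_mul] at d1 d2
    rw [if_pos h] at hE
    have d1' : ∏ k ∈ Rs p, ‖1 - sc p (2 * k)‖ = Real.sqrt p * H⁻¹ := d1.trans hR
    have d2' : ∏ k ∈ Ns p, ‖1 - sc p (2 * k)‖ = Real.sqrt p * H := d2.trans hN
    rw [d1', d2', hE]
    constructor
    · congr 1; field_simp
    · congr 1; field_simp
  · rw [h] at d1 d2
    rw [if_neg (by rw [h]; norm_num)] at hE
    rw [mul_one] at d1
    rw [show (-1 : ℤ) * -1 = 1 by norm_num] at d2
    have d1' : ∏ k ∈ Rs p, ‖1 - sc p (2 * k)‖ = Real.sqrt p * H := d1.trans hN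
    have d2' : ∏ k ∈ Ns p, ‖1 - sc p (2 * k)‖ = Real.sqrt p * H⁻¹ := d2.trans hR
    rw [d1', d2', hE]
    constructor
    · congr 1; field_simp
    · congr 1; field_simp

end one

end Pool.Agent.R945.TP
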