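import Mathlib
import Pool.Agent.R945.TP.U
import Pool.Agent.R945.TP.V

/-! The determinant of the Toeplitz matrix of order `(p+1)/2`, `p ≡ 1 (mod 4)`. -/

set_option autoImplicit false
set_option linter.unusedSectionVars false

namespace Pool.Agent.R945.TP

open Finset Matrix Pool.Agent.Helper184.Chapman

variable {p : ℕ} [Fact p.Prime]

/-- rank one update -/
lemma TX_det {K : Type*} [Field K] (n : ℕ) (c : Fin n → K) (hc : (T p K n).mulVec c = fun _ => 1) (x : K) :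
    (TX p K n x).det = (T p K n).det * (1 + x * ∑ j, c j) := by
  have h1 : TX p K n x = T p K n * (1 + replicateCol Unit c * replicateRow Unit (fun _ => x)) := by
    rw [Matrix.mul_add, Matrix.mul_one, ← Matrix.mul_assoc]
    ext i j
    rw [Matrix.add_apply, Matrix.mul_apply]
    simp only [Finset.univ_unique, Finset.sum_singleton, replicateRow_apply]
    have h2 := congrFun hc i
    have h3 : (T p K n * replicateCol Unit c) i default = 1 := by
      rw [← h2]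
      simp [Matrix.mul_apply, Matrix.mulVec, dotProduct]
    rw [h3, TX, Matrix.of_apply, one_mul]
  rw [h1, det_mul, det_one_add_replicateCol_mul_replicateRow]
  congr 2
  simp only [dotProduct, Finset.mul_sum]

/-- the integer vector -/
noncomputable def ww (p : ℕ) [Fact p.Prime] (n : ℕ) : Fin n → ℤ :=
  (T p ℤ n).adjugate.mulVec (fun _ => 1)

lemma T_ww (n : ℕ) : (T p ℤ n).mulVec (ww p n) = fun _ => (T p ℤ n).det := by
  rw [ww, Matrix.mulVec_mulVec, Matrix.mul_adjugate]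
  funext i
  simp [Matrix.smul_mulVec]

lemma T_ww_K {K : Type*} [Field K] (n : ℕ) (i : Fin n) :
    (T p K n).mulVec (fun j => ((ww p n j : ℤ) : K)) i = (((T p ℤ n).det : ℤ) : K) := by
  have h := congrArg (Int.cast : ℤ → K) (congrFun (T_ww (p := p) n) i)
  rw [← h]
  simp only [Matrix.mulVec, dotProduct]
  push_cast
  apply Finset.sum_congr rfl
  intro j _
  simp [T]

section
variable (m : ℕ) (hm : p = 2 * m + 1) (h1 : p % 4 = 1)

include hm in
lemma mu_char {K : Type*} [Field K] (hm0 : 0 < m) (h2 : (2 : K) ≠ 0) (hpK : (p : K) ≠ 0)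
    (ψ : AddChar (ZMod p) K) (hψ : ψ.IsPrimitive) :
    ∃ β : K, ((ww p (m + 1) 0 : ℤ) : K) = et p K * β ∧
      2 * ((∑ j, ww p (m + 1) j : ℤ) : K) = β * ((LD.PP ψ).eval 1 + (LD.PP ψ).eval (-1)) ∧
      β * ((LD.PP ψ).eval 1 - (LD.PP ψ).eval (-1)) =
        2 * (et p K * chi p K 2 * gaussSum (chi p K) ψ) * (((T p ℤ (m + 1)).det : ℤ) : K) := by
  obtain ⟨β, r1, r2, r3, r4, r5, r6⟩ := rel m hm ψ hψ hm0 h2 hpK
    (ext (fun j => ((ww p (m + 1) j : ℤ) : K))) (((T p ℤ (m + 1)).det : ℤ) : K) 0 0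
    (by
      apply sys_of
      intro i
      rw [T_ww_K]; simp)
  refine ⟨β, ?_, ?_, ?_⟩
  · have h3 := ext_val (fun j => ((ww p (m + 1) j : ℤ) : K)) 0
    rw [Fin.val_zero] at h3
    rw [← h3, r1]; ring
  · rw [ext_sum] at r3
    push_cast
    rw [r3]; ring
  · rw [r4, ← ap ψ hpK]; ring

include hm h1 in
lemma mu_unit (hm0 : 0 < m) (hrel : (p : ℤ) * ww p (m + 1) 0 ^ 2 =
      (∑ j, ww p (m + 1) j) ^ 2 - p * (T p ℤ (m + 1)).det ^ 2)
    (hD1 : (TX p ℤ (m + 1) 1).det = (T p ℤ (m + 1)).det + ∑ j, ww p (m + 1) j)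
    (hDm : (TX p ℤ (m + 1) (-1)).det = (T p ℤ (m + 1)).det - ∑ j, ww p (m + 1) j) :
    ww p (m + 1) 0 = 1 ∨ ww p (m + 1) 0 = -1 := by
  have hp : p.Prime := Fact.out
  set μ := ww p (m + 1) 0
  set S := ∑ j, ww p (m + 1) j with hS
  set d := (T p ℤ (m + 1)).det
  obtain ⟨k1, k2⟩ := TX_mod_four m hm h1
  rw [hD1] at k1
  rw [hDm] at k2
  have hp4 : (p : ℤ) % 4 = 1 := by omega
  have hμ1 : μ.natAbs = 1 := by
    rw [Nat.eq_one_iff_not_exists_prime_dvd]
    intro l hl hdvd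
    have hlμ : (l : ℤ) ∣ μ := Int.natCast_dvd.mpr hdvd
    have : Fact l.Prime := ⟨hl⟩
    by_cases hl2 : l = 2
    · subst hl2
      obtain ⟨t, ht⟩ := hlμ
      have hS2 : S % 2 = 1 := by omega
      have hd2 : d % 2 = 0 := by omega
      obtain ⟨u, hu⟩ : ∃ u, S = 2 * u + 1 := ⟨S / 2, by omega⟩
      obtain ⟨u', hu'⟩ : ∃ u', d = 2 * u' := ⟨d / 2, by omega⟩
      rw [ht, hu, hu'] at hrel
      have : 2 * (2 * (p * t ^ 2) - (2 * u ^ 2 + 2 * u - 2 * p * u' ^ 2)) = 1 := by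
        push_cast at hrel
        linear_combination hrel
      omega
    by_cases hlp : l = p
    · subst hlp
      apply det_mod_p m hm hm0
      have hS0 : (l : ℤ) ∣ S := by
        apply Int.Prime.dvd_pow' (k := 2) hp
        refine ⟨μ ^ 2 + d ^ 2, ?_⟩
        linear_combination -hrel
      apply Int.Prime.dvd_pow' (k := 2) hp
      obtain ⟨s, hs⟩ := hS0
      obtain ⟨t, ht⟩ := hlμ
      refine ⟨s ^ 2 - l * t ^ 2, ?_⟩
      have hl0 : (l : ℤ) ≠ 0 := by exact_mod_cast hp.ne_zero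
      apply mul_left_cancel₀ hl0
      rw [hs, ht] at hrel
      linear_combination hrel
    · -- other primes
      have h2 : (2 : ZMod l) ≠ 0 := two_ne' hl2
      have hpl : (p : ZMod l) ≠ 0 := by
        intro h
        rw [ZMod.natCast_eq_zero_iff] at h
        exact hlp ((Nat.prime_dvd_prime_iff_eq hl hp).mp h)
      let pp : ℕ+ := ⟨p, hp.pos⟩
      have hpp : ((pp : ℕ) : ZMod l) ≠ 0 := hpl
      let Ψ := AddChar.primitiveZModChar pp (ZMod l) hpp
      let L := CyclotomicField Ψ.n (ZMod l)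
      let f : ZMod l →+* L := algebraMap (ZMod l) L
      have hf : Function.Injective f := f.injective
      have h2L : (2 : L) ≠ 0 := by
        intro h
        apply h2
        apply hf
        rw [map_zero, ← h]
        exact map_ofNat f 2
      have hpL : (p : L) ≠ 0 := by
        intro h
        apply hpl
        apply hf
        rw [map_zero, ← h]
        exact map_natCast f p
      have hdvd : ∀ n : ℤ, (n : L) = 0 ↔ (l : ℤ) ∣ n := by
        intro n
        have h3 : f ((n : ℤ) : ZMod l) = (n : L) := map_intCast f n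
        rw [← h3, map_eq_zero_iff f hf, ZMod.intCast_zmod_eq_zero_iff_dvd]
      obtain ⟨β, b1, b2, b3⟩ := mu_char m hm hm0 h2L hpL Ψ.char Ψ.prim
      have hβ : β = 0 := by
        have h4 : ((ww p (m + 1) 0 : ℤ) : L) = 0 := (hdvd _).mpr hlμ
        rw [h4] at b1
        have h5 := et_sq (p := p) (K := L)
        have : (et p L * et p L) * β = 0 := by rw [mul_assoc, ← b1, mul_zero]
        rwa [h5, one_mul] at this
      rw [hβ, zero_mul] at b2 b3
      have hS0 : (l : ℤ) ∣ S := by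
        rw [← hdvd]
        exact (mul_eq_zero.mp b2).resolve_left h2L
      have hg0 : gaussSum (chi p L) Ψ.char ≠ 0 := by
        intro h0
        have := gsq (K := L) (by omega : p ≠ 2) h2L Ψ.char Ψ.prim
        rw [h0] at this
        have h5 := et_sq (p := p) (K := L)
        have h6 : et p L ≠ 0 := by intro h7; rw [h7] at h5; simp at h5
        apply mul_ne_zero h6 hpL
        rw [← this]; ring
      have hd0 : (l : ℤ) ∣ d := by
        rw [← hdvd]
        have h5 := et_sq (p := p) (K := L)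
        have h6 : et p L ≠ 0 := by intro h7; rw [h7] at h5; simp at h5
        have h7 := chi_sq (p := p) (K := L) (k := 2) (two_ne' (by omega))
        have h8 : chi p L 2 ≠ 0 := by intro h9; rw [h9] at h7; simp at h7
        exact (mul_eq_zero.mp b3.symm).resolve_left
          (mul_ne_zero h2L (mul_ne_zero (mul_ne_zero h6 h8) hg0))
      exact pair m hm hm0 l hl2 hlp hd0 (by rw [hD1]; exact dvd_add hd0 hS0)
  rcases Int.natAbs_eq μ with h | h
  · left; rw [h, hμ1]; rfl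
  · right; rw [h, hμ1]; rfl

lemma irr {p : ℕ} (hp : p.Prime) (a b c d : ℚ) (h : (a : ℝ) + b * Real.sqrt p = c + d * Real.sqrt p) :
    a = c ∧ b = d := by
  have hirr : Irrational (Real.sqrt p) := hp.irrational_sqrt
  have hb : b = d := by
    by_contra hne
    apply hirr
    have hne' : (b : ℝ) - d ≠ 0 := by
      intro h0
      apply hne
      have : (b : ℝ) = d := sub_eq_zero.mp h0
      exact_mod_cast this
    refine ⟨(c - a) / (b - d), ?_⟩
    push_cast
    rw [div_eq_iff hne']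
    linear_combination -h
  refine ⟨?_, hb⟩
  rw [hb] at h
  have : (a : ℝ) = c := by linarith
  exact_mod_cast this

include hm h1 in
theorem thmA (E : ℝ) (hE1 : 1 < E) (a b : ℚ) (hE : E = a + b * Real.sqrt p)
    (hP1 : (LD.PP (sc p)).eval 1 = ((Real.sqrt p * E⁻¹ : ℝ) : ℂ))
    (hPm : (LD.PP (sc p)).eval (-1) = ((Real.sqrt p * E : ℝ) : ℂ)) :
    (((T p ℤ (m + 1)).det : ℤ) : ℚ) = -a ∧ ww p (m + 1) 0 = quadraticChar (ZMod p) 2 ∧
    ((∑ j, ww p (m + 1) j : ℤ) : ℚ) = quadraticChar (ZMod p) 2 * p * b ∧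
    a ^ 2 + 1 = p * b ^ 2 ∧ 0 < b ∧ (∃ B : ℤ, (B : ℚ) = b) ∧
    (LD.PP (sc p)).eval 1 + (LD.PP (sc p)).eval (-1) = 2 * p * (b : ℂ) ∧
    (LD.PP (sc p)).eval 1 - (LD.PP (sc p)).eval (-1) = -2 * (a : ℂ) * gaussSum (chi p ℂ) (sc p) := by
  have hp : p.Prime := Fact.out
  have hp2 : p ≠ 2 := by omega
  have hm0 : 0 < m := by
    have := hp.two_le
    omega
  have hpC : (p : ℂ) ≠ 0 := by exact_mod_cast hp.ne_zero
  have hp0 : (0 : ℝ) < p := by exact_mod_cast hp.pos
  have hs0 : 0 < Real.sqrt p := Real.sqrt_pos.2 hp0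
  have hss : Real.sqrt p * Real.sqrt p = p := Real.mul_self_sqrt hp0.le
  have hg := g_eq h1
  have he := et_one (K := ℂ) h1
  set P1 := (LD.PP (sc p)).eval 1 with hP1d
  set Pm := (LD.PP (sc p)).eval (-1) with hPmd
  set d := (T p ℤ (m + 1)).det with hd
  set S := ∑ j, ww p (m + 1) j with hS
  set μ := ww p (m + 1) 0 with hμ
  set q2 : ℤ := quadraticChar (ZMod p) 2 with hq2
  have hq2s : q2 * q2 = 1 := by
    have := quadraticChar_sq_one (F := ZMod p) (two_ne' hp2)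
    rwa [sq] at this
  have hc2 : chi p ℂ 2 = (q2 : ℂ) := rfl
  obtain ⟨β, b1, b2, b3⟩ := mu_char m hm hm0 (two_ne_zero (α := ℂ)) hpC (sc p) sc_prim
  rw [he, one_mul] at b1
  rw [← b1, ← hP1d, ← hPmd] at b2 b3
  rw [he, one_mul, hc2, hg] at b3
  replace b2 : 2 * (S : ℂ) = (μ : ℂ) * (P1 + Pm) := b2
  replace b3 : (μ : ℂ) * (P1 - Pm) = 2 * ((q2 : ℂ) * ((Real.sqrt p : ℝ) : ℂ)) * (d : ℂ) := b3
  -- real versions
  have r2 : 2 * (S : ℝ) = μ * (Real.sqrt p * E⁻¹ + Real.sqrt p * E) := by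
    clear_value S d μ q2 P1 Pm
    have : ((2 * (S : ℝ) : ℝ) : ℂ) = ((μ * (Real.sqrt p * E⁻¹ + Real.sqrt p * E) : ℝ) : ℂ) := by
      rw [hP1, hPm] at b2
      push_cast at b2 ⊢
      exact b2
    exact_mod_cast this
  have r3 : μ * (Real.sqrt p * E⁻¹ - Real.sqrt p * E) = 2 * (q2 * Real.sqrt p) * d := by
    clear_value S d μ q2 P1 Pm
    have : ((μ * (Real.sqrt p * E⁻¹ - Real.sqrt p * E) : ℝ) : ℂ) = ((2 * (q2 * Real.sqrt p) * d : ℝ) : ℂ) := by
      rw [hP1, hPm] at b3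
      push_cast at b3 ⊢
      exact b3
    exact_mod_cast this
  have hE0 : 0 < E := by linarith
  have hEE : E⁻¹ * E = 1 := inv_mul_cancel₀ hE0.ne'
  have hEi : E⁻¹ < 1 := by
    rw [inv_lt_one₀ hE0]; exact hE1
  -- d ≠ 0
  have hd0 : d ≠ 0 := by
    intro h0
    have hdet : (T p ℂ (m + 1)).det = 0 := by
      rw [← det_cast, ← hd, h0]; simp
    obtain ⟨v, hv0, hv⟩ := Matrix.exists_mulVec_eq_zero_iff.mpr hdet
    obtain ⟨β', s1, s2, s3, s4, s5, s6⟩ := rel m hm (sc p) sc_prim hm0 (two_ne_zero (α := ℂ)) hpC (ext v) 0 0 0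
      (by
        apply sys_of
        intro i
        rw [hv]; simp)
    rw [← hP1d, ← hPmd, hP1, hPm] at s4
    have h3 : β' = 0 := by
      have h4 : β' * (((Real.sqrt p * (E⁻¹ - E) : ℝ)) : ℂ) = 0 := by
        push_cast at s4 ⊢
        linear_combination s4
      rcases mul_eq_zero.mp h4 with h | h
      · exact h
      · exfalso
        have h5 : Real.sqrt p * (E⁻¹ - E) = 0 := by exact_mod_cast h
        rcases mul_eq_zero.mp h5 with h | h
        · exact hs0.ne' h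
        · linarith
    apply hv0
    funext j
    have := s6 rfl rfl rfl h3 j (Finset.mem_range.mpr j.2)
    rwa [ext_val] at this
  -- D1 and Dm
  have hdQ : (d : ℚ) ≠ 0 := by exact_mod_cast hd0
  have hdetx : ∀ x : ℤ, (TX p ℤ (m + 1) x).det = d + x * S := by
    intro x
    have h3 := TX_det (p := p) (K := ℚ) (m + 1) (fun j => ((ww p (m + 1) j : ℤ) : ℚ) / d) (by
      funext i
      have h4 := T_ww_K (p := p) (K := ℚ) (m + 1) i
      have h5 : (fun j => ((ww p (m + 1) j : ℤ) : ℚ) / d) = (d : ℚ)⁻¹ • (fun j => ((ww p (m + 1) j : ℤ) : ℚ)) := by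
        funext j; simp [div_eq_inv_mul]
      rw [h5, Matrix.mulVec_smul, Pi.smul_apply, h4, smul_eq_mul, inv_mul_cancel₀ hdQ]) (x : ℚ)
    have h6 := TX_det_map (p := p) (Int.castRingHom ℚ) (m + 1) x
    rw [eq_intCast, eq_intCast, h3, ← det_cast, ← hd, ← Finset.sum_div] at h6
    have h7 : ((TX p ℤ (m + 1) x).det : ℚ) = d + x * S := by
      rw [h6, hS]
      push_cast
      field_simp
    exact_mod_cast h7
  have hrel : (p : ℤ) * μ ^ 2 = S ^ 2 - p * d ^ 2 := by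
    have hq2r : (q2 : ℝ) * q2 = 1 := by exact_mod_cast hq2s
    have h3 : 4 * ((p : ℝ) * μ ^ 2) = 4 * (S ^ 2 - p * d ^ 2) := by
      have e1 : (2 * (S : ℝ)) ^ 2 - (2 * (q2 * Real.sqrt p) * d) ^ 2 =
          (μ * (Real.sqrt p * E⁻¹ + Real.sqrt p * E)) ^ 2 - (μ * (Real.sqrt p * E⁻¹ - Real.sqrt p * E)) ^ 2 := by
        rw [r2, r3]
      linear_combination (-1 : ℝ) * e1 - 4 * μ ^ 2 * (E⁻¹ * E) * hss - 4 * μ ^ 2 * p * hEE
        - 4 * (d : ℝ) ^ 2 * (q2 * q2) * hss - 4 * (d : ℝ) ^ 2 * p * hq2r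
    have h4 : ((p : ℝ) * μ ^ 2) = (S ^ 2 - p * d ^ 2) := by linarith
    exact_mod_cast h4
  have hD1 := hdetx 1
  have hDm := hdetx (-1)
  rw [one_mul] at hD1
  rw [neg_one_mul, ← sub_eq_add_neg] at hDm
  have hμpm : μ = 1 ∨ μ = -1 := mu_unit m hm h1 hm0 hrel hD1 hDm
  have hμ2 : μ * μ = 1 := by rcases hμpm with h | h <;> simp only [h] <;> norm_num
  -- S = p S₁
  obtain ⟨S1, hS1⟩ : (p : ℤ) ∣ S := by
    apply Int.Prime.dvd_pow' (k := 2) hp
    refine ⟨μ ^ 2 + d ^ 2, ?_⟩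
    linear_combination -hrel
  have hS1r : d ^ 2 + 1 = p * S1 ^ 2 := by
    have hp0' : (p : ℤ) ≠ 0 := by exact_mod_cast hp.ne_zero
    apply mul_left_cancel₀ hp0'
    rw [hS1] at hrel
    linear_combination hrel - p * hμ2
  have hμr : (μ : ℝ) * μ = 1 := by exact_mod_cast hμ2
  have hq2r : (q2 : ℝ) * q2 = 1 := by exact_mod_cast hq2s
  have hEab : (a : ℝ) + b * Real.sqrt p = ((-(μ * q2 * d) : ℤ) : ℚ) + ((μ * S1 : ℤ) : ℚ) * Real.sqrt p := by
    rw [← hE]
    apply mul_left_cancel₀ hs0.ne'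
    have hSr : (S : ℝ) = p * S1 := by exact_mod_cast hS1
    push_cast
    linear_combination (-(μ : ℝ) / 2) * r2 - ((μ : ℝ) / 2) * r3 - (Real.sqrt p * E) * hμr + (μ : ℝ) * hSr
      - (μ * S1 : ℝ) * hss
  obtain ⟨ea, eb⟩ := irr hp _ _ _ _ hEab
  have hb0 : 0 < b := by
    have h3 : 0 < E⁻¹ + E := by positivity
    have h4 : 2 * (p * ((μ * S1 : ℤ) : ℝ)) = Real.sqrt p * (E⁻¹ + E) := by
      have hSr : (S : ℝ) = p * S1 := by exact_mod_cast hS1
      push_cast
      linear_combination (μ : ℝ) * r2 + (Real.sqrt p * (E⁻¹ + E)) * hμr - 2 * (μ : ℝ) * hSr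
    have h5 : 0 < 2 * (p * ((μ * S1 : ℤ) : ℝ)) := by rw [h4]; positivity
    have h6 : 0 < ((μ * S1 : ℤ) : ℝ) := by
      by_contra h7
      push Not at h7
      have : p * ((μ * S1 : ℤ) : ℝ) ≤ 0 := mul_nonpos_of_nonneg_of_nonpos hp0.le h7
      linarith
    have h8 : 0 < μ * S1 := by exact_mod_cast h6
    rw [eb]
    exact_mod_cast h8
  set B : ℤ := μ * S1 with hB
  have hBpos : 0 < B := by
    rw [eb] at hb0
    exact_mod_cast hb0
  have hBr : d ^ 2 + 1 = p * B ^ 2 := by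
    rw [hS1r, hB]; linear_combination (-(p : ℤ) * S1 ^ 2) * hμ2
  -- parity
  obtain ⟨k1, k2⟩ := TX_mod_four m hm h1
  rw [hD1] at k1
  rw [hDm] at k2
  obtain ⟨pk, hpk⟩ : ∃ k : ℤ, (p : ℤ) = 4 * k + 1 := ⟨(p : ℤ) / 4, by omega⟩
  have hB4 : B % 4 = 1 := by
    have hodd : B % 2 = 1 := by
      rcases Int.emod_two_eq_zero_or_one B with h | h
      · exfalso
        obtain ⟨u, hu⟩ : ∃ u, B = 2 * u := ⟨B / 2, by omega⟩
        obtain ⟨u', hu'⟩ : ∃ u', d = 2 * u' := ⟨d / 2, by omega⟩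
        rw [hu, hu'] at hBr
        have : 2 * (2 * (p * u ^ 2) - 2 * u' ^ 2) = 1 := by linear_combination -hBr
        omega
      · exact h
    obtain ⟨n, hn⟩ : ∃ n : ℕ, (n : ℤ) = B := ⟨B.toNat, Int.toNat_of_nonneg hBpos.le⟩
    have hsqr : IsSquare (-1 : ZMod n) := by
      refine ⟨(d : ZMod n), ?_⟩
      have h3 := congrArg (Int.cast : ℤ → ZMod n) hBr
      rw [← hn] at h3
      push_cast at h3
      rw [ZMod.natCast_self] at h3
      linear_combination -h3
    obtain ⟨x, y, hxy⟩ := Nat.eq_sq_add_sq_of_isSquare_mod_neg_one hsqr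
    have hn2 : n % 2 = 1 := by omega
    have hn4 : n % 4 = 1 := by
      rw [hxy] at hn2 ⊢
      rcases Nat.even_or_odd' x with ⟨u, hu | hu⟩ <;> rcases Nat.even_or_odd' y with ⟨w, hw | hw⟩ <;>
        subst hu <;> subst hw
      · exfalso; ring_nf at hn2; omega
      · ring_nf; omega
      · ring_nf; omega
      · exfalso; ring_nf at hn2; omega
    omega
  have hq2v : q2 = if p % 8 = 1 then 1 else -1 := by
    rw [hq2, quadraticChar_two (by rw [ZMod.ringChar_zmod_n]; exact hp2), ZMod.card,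
      ZMod.χ₈_nat_eq_if_mod_eight, if_neg (by omega)]
    by_cases h8 : p % 8 = 1
    · rw [if_pos (by omega), if_pos h8]
    · rw [if_neg (by omega), if_neg h8]
  have hμq : μ = q2 := by
    obtain ⟨u, hu⟩ : ∃ u, B = 4 * u + 1 := ⟨B / 4, by omega⟩
    have hSμ : S = p * (μ * B) := by rw [hS1, hB]; linear_combination (-(p : ℤ) * S1) * hμ2
    have hSmod : (4 : ℤ) ∣ S - μ := by
      rw [hSμ, hu, hpk]
      exact ⟨μ * (4 * pk * u + pk + u), by ring⟩
    have hB8 : (8 : ℤ) ∣ B ^ 2 - 1 := by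
      rw [hu]
      exact ⟨2 * u ^ 2 + u, by ring⟩
    obtain ⟨t, ht⟩ := hB8
    rcases hμpm with hμ1 | hμ1
    · rw [hμ1] at hSmod ⊢
      obtain ⟨w, hw⟩ : ∃ w, d = 4 * w := ⟨d / 4, by omega⟩
      have h8 : (p : ℤ) % 8 = 1 := by
        have h9 : (p : ℤ) = 1 + 8 * (2 * w ^ 2 - p * t) := by
          rw [hw] at hBr
          linear_combination (-1 : ℤ) * hBr + (-(p : ℤ)) * ht
        omega
      rw [hq2v, if_pos (by omega)]
    · rw [hμ1] at hSmod ⊢
      obtain ⟨w, hw⟩ : ∃ w, d = 4 * w + 2 := ⟨d / 4, by omega⟩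
      have h8 : (p : ℤ) % 8 = 5 := by
        have h9 : (p : ℤ) = 5 + 8 * (2 * w ^ 2 + 2 * w - p * t) := by
          rw [hw] at hBr
          linear_combination (-1 : ℤ) * hBr + (-(p : ℤ)) * ht
        omega
      rw [hq2v, if_neg (by omega)]
  have ea2 : a = -(d : ℚ) := by
    rw [ea]
    push_cast
    have h3 : (μ : ℚ) * q2 = 1 := by rw [hμq]; exact_mod_cast hq2s
    linear_combination (-(d : ℚ)) * h3
  refine ⟨?_, hμq, ?_, ?_, hb0, ⟨B, eb.symm⟩, ?_, ?_⟩
  · rw [ea2]; ring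
  · rw [eb, hS1]
    push_cast
    have h3 : (q2 : ℚ) * μ = 1 := by rw [hμq]; exact_mod_cast hq2s
    rw [hB]
    push_cast
    linear_combination (-(p : ℚ) * S1) * h3
  · rw [ea2, eb]
    have := congrArg (Int.cast : ℤ → ℚ) hBr
    push_cast at this ⊢
    linear_combination this
  · rw [eb]
    have h3 : (μ : ℂ) * μ = 1 := by exact_mod_cast hμ2
    have h4 : (S : ℂ) = p * S1 := by exact_mod_cast hS1
    rw [hB]
    push_cast
    linear_combination (-(P1 + Pm)) * h3 - (μ : ℂ) * b2 + 2 * (μ : ℂ) * h4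
  · rw [ea2, hg]
    have h3 : (μ : ℂ) * μ = 1 := by exact_mod_cast hμ2
    have h4 : (μ : ℂ) * q2 = 1 := by rw [hμq]; exact_mod_cast hq2s
    push_cast
    linear_combination (-(P1 - Pm)) * h3 + (μ : ℂ) * b3 + (2 * ((Real.sqrt p : ℝ) : ℂ) * d) * h4

end

end Pool.Agent.R945.TP
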