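import Mathlib
import Pool.Agent.R945.TP.A

/-! Four-parameter perturbations of determinants, and minors. -/

set_option autoImplicit false
set_option linter.unusedSectionVars false

namespace Pool.Agent.R945.TP

open Finset Matrix Pool.Agent.Helper184.Chapman

section alg

variable {K : Type*} [CommRing K]

/-- rank two update with `A c = 1` and `A d = u` -/
theorem det4 {n : ℕ} (A : Matrix (Fin n) (Fin n) K) (c d u r : Fin n → K)
    (hc : A.mulVec c = fun _ => 1) (hd : A.mulVec d = u) (x y z w : K) :
    (Matrix.of fun i j => A i j + x + u i * y + r j * z + u i * r j * w).det =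
      A.det * ((1 + x * ∑ j, c j + z * ∑ j, r j * c j) * (1 + y * ∑ j, d j + w * ∑ j, r j * d j) -
        (x * ∑ j, d j + z * ∑ j, r j * d j) * (y * ∑ j, c j + w * ∑ j, r j * c j)) := by
  set V : Matrix (Fin n) (Fin 2) K := Matrix.of fun j i => if i = 0 then c j else d j with hV
  set W : Matrix (Fin 2) (Fin n) K := Matrix.of fun i j => if i = 0 then x + z * r j else y + w * r j with hW
  have h1 : (Matrix.of fun i j => A i j + x + u i * y + r j * z + u i * r j * w) = A * (1 + V * W) := by
    rw [Matrix.mul_add, Matrix.mul_one, ← Matrix.mul_assoc]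
    ext i j
    rw [Matrix.add_apply, Matrix.mul_apply, Fin.sum_univ_two]
    have e0 : (A * V) i 0 = 1 := by
      have h2 := congrFun hc i
      rw [← h2]
      simp [Matrix.mul_apply, Matrix.mulVec, dotProduct, hV]
    have e1 : (A * V) i 1 = u i := by
      have h2 := congrFun hd i
      rw [← h2]
      simp [Matrix.mul_apply, Matrix.mulVec, dotProduct, hV]
    rw [e0, e1]
    simp only [hW, Matrix.of_apply, if_true, one_ne_zero, if_false]
    ring
  rw [h1, det_mul, Matrix.det_one_add_mul_comm, Matrix.det_fin_two]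
  have w00 : (W * V) 0 0 = x * ∑ j, c j + z * ∑ j, r j * c j := by
    simp only [Matrix.mul_apply, hV, hW, Matrix.of_apply, if_true, Finset.mul_sum, ← Finset.sum_add_distrib]
    exact Finset.sum_congr rfl (fun j _ => by ring)
  have w01 : (W * V) 0 1 = x * ∑ j, d j + z * ∑ j, r j * d j := by
    simp only [Matrix.mul_apply, hV, hW, Matrix.of_apply, if_true, one_ne_zero, if_false, Finset.mul_sum, ← Finset.sum_add_distrib]
    exact Finset.sum_congr rfl (fun j _ => by ring)
  have w10 : (W * V) 1 0 = y * ∑ j, c j + w * ∑ j, r j * c j := by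
    simp only [Matrix.mul_apply, hV, hW, Matrix.of_apply, if_true, one_ne_zero, if_false, Finset.mul_sum, ← Finset.sum_add_distrib]
    exact Finset.sum_congr rfl (fun j _ => by ring)
  have w11 : (W * V) 1 1 = y * ∑ j, d j + w * ∑ j, r j * d j := by
    simp only [Matrix.mul_apply, hV, hW, Matrix.of_apply, one_ne_zero, if_false, Finset.mul_sum, ← Finset.sum_add_distrib]
    exact Finset.sum_congr rfl (fun j _ => by ring)
  rw [Matrix.add_apply, Matrix.add_apply, Matrix.add_apply, Matrix.add_apply, w00, w01, w10, w11,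
    Matrix.one_apply_eq, Matrix.one_apply_eq, Matrix.one_apply_ne (by decide), Matrix.one_apply_ne (by decide)]
  ring

/-- the case `u` = column zero of `A` -/
theorem det4_col {n : ℕ} (A : Matrix (Fin (n + 1)) (Fin (n + 1)) K) (c r : Fin (n + 1) → K)
    (hc : A.mulVec c = fun _ => 1) (x y z w : K) :
    (Matrix.of fun i j => A i j + x + A i 0 * y + r j * z + A i 0 * r j * w).det =
      A.det * ((1 + x * ∑ j, c j + z * ∑ j, r j * c j) * (1 + y + w * r 0) -
        (x + z * r 0) * (y * ∑ j, c j + w * ∑ j, r j * c j)) := by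
  have h := det4 A c (Pi.single 0 1) (fun i => A i 0) r hc (by
    funext i
    simp [Matrix.mulVec, dotProduct, Pi.single_apply]) x y z w
  rw [h]
  have e1 : ∑ j : Fin (n + 1), (Pi.single (0 : Fin (n + 1)) (1 : K) : Fin (n + 1) → K) j = 1 := by
    simp [Pi.single_apply]
  have e2 : ∑ j : Fin (n + 1), r j * (Pi.single (0 : Fin (n + 1)) (1 : K) : Fin (n + 1) → K) j = r 0 := by
    simp [Pi.single_apply]
  rw [e1, e2, mul_one, mul_one]

theorem minor_eq {n : ℕ} (A : Matrix (Fin (n + 1)) (Fin (n + 1)) K) (q : Fin (n + 1) → K)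
    (hq : A.mulVec q = Pi.single 0 1) (j : Fin (n + 1)) : A.det * q j = A.adjugate j 0 := by
  have h := congrArg (A.adjugate.mulVec) hq
  rw [Matrix.mulVec_mulVec, Matrix.adjugate_mul] at h
  have h2 := congrFun h j
  simp only [Matrix.smul_mulVec, Matrix.one_mulVec, Pi.smul_apply, smul_eq_mul] at h2
  rw [h2]
  simp [Matrix.mulVec, dotProduct, Pi.single_apply]

theorem minor_zero {n : ℕ} (A : Matrix (Fin (n + 1)) (Fin (n + 1)) K) (q : Fin (n + 1) → K)
    (hq : A.mulVec q = Pi.single 0 1) : (A.submatrix Fin.succ Fin.succ).det = A.det * q 0 := by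
  rw [minor_eq A q hq 0, Matrix.adjugate_fin_succ_eq_det_submatrix]
  simp

theorem minor_last {n : ℕ} (A : Matrix (Fin (n + 1)) (Fin (n + 1)) K) (q : Fin (n + 1) → K)
    (hq : A.mulVec q = Pi.single 0 1) :
    (A.submatrix Fin.succ Fin.castSucc).det = (-1) ^ n * (A.det * q (Fin.last n)) := by
  rw [minor_eq A q hq (Fin.last n), Matrix.adjugate_fin_succ_eq_det_submatrix]
  have e1 : (Fin.last n).succAbove = Fin.castSucc := Fin.succAbove_last
  have e2 : (0 : Fin (n + 1)).succAbove = Fin.succ := by
    funext i; exact Fin.succAbove_zero_apply i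
  rw [e1, e2, ← mul_assoc, Fin.val_zero, Fin.val_last, zero_add, ← pow_add, ← two_mul, pow_mul]
  simp

end alg

variable {p : ℕ} [Fact p.Prime]

lemma T_sub (K : Type*) [CommRing K] (n : ℕ) :
    (T p K (n + 1)).submatrix Fin.succ Fin.succ = T p K n := by
  ext i j
  simp [T]

/-- the shifted matrix -/
noncomputable def CC (p : ℕ) [Fact p.Prime] (K : Type*) [CommRing K] (n : ℕ) : Matrix (Fin n) (Fin n) K :=
  (T p K (n + 1)).submatrix Fin.succ Fin.castSucc

lemma CC_apply (K : Type*) [Field K] (n : ℕ) (i j : Fin n) :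
    CC p K n i j = chi p K ((((i : ℕ) : ZMod p) + 1) - ((j : ℕ) : ZMod p)) := by
  simp [CC, T, chi_apply]

lemma T_apply (K : Type*) [Field K] (n : ℕ) (i j : Fin n) :
    T p K n i j = chi p K (((i : ℕ) : ZMod p) - ((j : ℕ) : ZMod p)) := by
  simp [T, chi_apply]

/-- extending a vector of length `n` by a zero in front -/
def shift {K : Type*} [Zero K] {n : ℕ} (c : Fin n → K) : ℕ → K := fun j => if j = 0 then 0 else ext c (j - 1)

end Pool.Agent.R945.TP
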