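import Mathlib
import Pool.Agent.R945.TP.M

/-! Determinants of Toeplitz matrices of Legendre symbols, `p ≡ 1 (mod 4)`. -/

set_option autoImplicit false
set_option linter.unusedSectionVars false

namespace Pool.Agent.R945.TP

open Finset Matrix Pool.Agent.Helper184.Chapman

lemma sum_ext {K : Type*} [CommRing K] {n N : ℕ} (h : n ≤ N) (f : ℕ → K) (c : Fin n → K) :
    ∑ j ∈ range N, f j * ext c j = ∑ j : Fin n, f j * c j := by
  obtain ⟨t, rfl⟩ := Nat.exists_eq_add_of_le h
  rw [Finset.sum_range_add, Finset.sum_eq_zero (s := range t) (by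
    intro j _
    rw [Pool.Agent.Helper184.Chapman.ext, dif_neg (by omega), mul_zero]), add_zero,
    ← Fin.sum_univ_eq_sum_range (fun j => f j * ext c j)]
  exact Finset.sum_congr rfl (fun j _ => by rw [ext_val])

lemma sum_shift {K : Type*} [CommRing K] {n N : ℕ} (h : n + 1 ≤ N) (f : ℕ → K) (c : Fin n → K) :
    ∑ j ∈ range N, f j * shift c j = ∑ j : Fin n, f (j + 1) * c j := by
  obtain ⟨t, rfl⟩ := Nat.exists_eq_add_of_le' (by omega : 1 ≤ N)
  rw [Finset.sum_range_succ']
  simp only [shift, if_true, mul_zero, add_zero, Nat.add_eq_zero_iff, one_ne_zero, and_false, if_false,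
    Nat.add_sub_cancel]
  exact sum_ext (by omega) (fun j => f (j + 1)) c

lemma sum_ext' {K : Type*} [CommRing K] {n N : ℕ} (h : n ≤ N) (c : Fin n → K) :
    ∑ j ∈ range N, ext c j = ∑ j : Fin n, c j := by
  have := sum_ext h (fun _ => (1 : K)) c
  simpa using this

lemma sum_shift' {K : Type*} [CommRing K] {n N : ℕ} (h : n + 1 ≤ N) (c : Fin n → K) :
    ∑ j ∈ range N, shift c j = ∑ j : Fin n, c j := by
  have := sum_shift h (fun _ => (1 : K)) c
  simpa using this

lemma exists_solve {K : Type*} [Field K] {n : ℕ} (A : Matrix (Fin n) (Fin n) K) (h : A.det ≠ 0) (b : Fin n → K) :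
    ∃ v, A.mulVec v = b := by
  refine ⟨A⁻¹.mulVec b, ?_⟩
  rw [Matrix.mulVec_mulVec, Matrix.mul_nonsing_inv _ (Ne.isUnit h), Matrix.one_mulVec]

variable {p : ℕ} [Fact p.Prime]

lemma row_T {K : Type*} [Field K] {n : ℕ} (c : Fin n → K) (i : Fin n) :
    (T p K n).mulVec c i = ∑ j : Fin n, chi p K (((i : ℕ) : ZMod p) - ((j : ℕ) : ZMod p)) * c j := by
  simp only [Matrix.mulVec, dotProduct, T_apply]

lemma row_C {K : Type*} [Field K] {n : ℕ} (c : Fin n → K) (i : Fin n) :
    (CC p K n).mulVec c i = ∑ j : Fin n, chi p K ((((i : ℕ) : ZMod p) + 1) - ((j : ℕ) : ZMod p)) * c j := by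
  simp only [Matrix.mulVec, dotProduct, CC_apply]

section one

/-- the analytic data for `p ≡ 1 (mod 4)` -/
structure Dat (p : ℕ) [Fact p.Prime] (m : ℕ) (a b : ℂ) : Prop where
  hm : p = 2 * m + 1
  h1 : p % 4 = 1
  hab : a ^ 2 + 1 = p * b ^ 2
  ha : a ≠ 0
  hb : b ≠ 0
  hne : a - b ≠ 0
  hPe : (LD.PP (sc p)).eval 1 + (LD.PP (sc p)).eval (-1) = 2 * p * b
  hPo : (LD.PP (sc p)).eval 1 - (LD.PP (sc p)).eval (-1) = -2 * a * gaussSum (chi p ℂ) (sc p)
  hdet : (T p ℂ (m + 1)).det = -a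

variable {m : ℕ} {a b : ℂ} (D : Dat p m a b)
include D

lemma Dat.pos : 0 < m := by
  have hp : p.Prime := Fact.out
  have := hp.two_le
  have := D.hm
  omega

lemma Dat.two : p ≠ 2 := by
  have := D.h1
  rintro rfl
  omega

lemma Dat.q2 : chi p ℂ 2 * chi p ℂ 2 = 1 := chi_sq (two_ne' D.two)

lemma Dat.pC : (p : ℂ) ≠ 0 := by
  have hp : p.Prime := Fact.out
  exact_mod_cast hp.ne_zero

lemma Dat.g2 : gaussSum (chi p ℂ) (sc p) * gaussSum (chi p ℂ) (sc p) = p := by
  have h := gsq (K := ℂ) D.two two_ne_zero (sc p) sc_prim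
  rw [et_one D.h1, one_mul] at h
  linear_combination h

lemma Dat.g0 : gaussSum (chi p ℂ) (sc p) ≠ 0 := by
  intro h
  have := D.g2
  rw [h] at this
  exact D.pC (by rw [← this]; ring)

/-- consequences of `rel` -/
lemma Dat.rel (v : ℕ → ℂ) (s b0 bm : ℂ)
    (hv : ∀ i ∈ range (m + 1), ∑ j ∈ range (m + 1), chi p ℂ ((i : ZMod p) - (j : ZMod p)) * v j =
      s + (if i = 0 then b0 else 0) + (if i = m then bm else 0)) :
    ∃ β : ℂ, v 0 = β + chi p ℂ 2 * bm ∧
      v m = β + chi p ℂ 2 * b0 ∧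
      ∑ j ∈ range (m + 1), v j = β * (p * b) + chi p ℂ 2 * (b0 + bm) * a ∧
      - β * a = chi p ℂ 2 * (s + (b0 + bm) * b) ∧
      ∑ j ∈ range (m + 1), chi p ℂ (-1 - (j : ZMod p)) * v j =
        chi p ℂ 2 * β * p + s + b0 * (LD.PP (sc p)).coeff (2 * m - 2) + bm := by
  obtain ⟨β, r1, r2, r3, r4, r5, -⟩ := TP.rel m D.hm (sc p) sc_prim D.pos two_ne_zero D.pC v s b0 bm hv
  have he := et_one (K := ℂ) D.h1
  have hag := ag (sc p) D.two two_ne_zero D.pC sc_prim
  have hap := ap (sc p) D.pC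
  rw [he] at r1 r3 r4 r5
  rw [he, one_mul] at hap
  have hq := D.q2
  have hg := D.g2
  have hg0 := D.g0
  set g := gaussSum (chi p ℂ) (sc p) with hgd
  set A := aa (sc p) with hA
  set q := chi p ℂ 2 with hqd
  have hA0 : A ≠ 0 := by
    intro h
    rw [h, zero_mul] at hag
    rw [← hag] at hq
    norm_num at hq
  rw [D.hPe] at r3 r4
  rw [D.hPo] at r3 r4
  refine ⟨β, ?_, ?_, ?_, ?_, ?_⟩
  · rw [r1]; linear_combination bm * hag
  · rw [r2]; linear_combination b0 * hag
  · linear_combination (1 / 2 : ℂ) * r3 + (b0 + bm) * a * hag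
  · apply mul_left_cancel₀ (mul_ne_zero two_ne_zero hg0 : (2 : ℂ) * g ≠ 0)
    linear_combination r4 + 2 * (s + (b0 + bm) * b) * hap
  · apply mul_left_cancel₀ hA0
    rw [r5]
    have : β * g = A * (q * β * p) := by
      linear_combination (-(q * β)) * hap - (β * g) * hq
    linear_combination this

lemma Dat.v_T : ∃ v : Fin (m + 1) → ℂ, (T p ℂ (m + 1)).mulVec v = Pi.single 0 1 ∧
    v 0 = - (chi p ℂ 2 * b / a) ∧ v (Fin.last m) = chi p ℂ 2 * (a - b) / a := by
  have hd : (T p ℂ (m + 1)).det ≠ 0 := by rw [D.hdet]; exact neg_ne_zero.mpr D.ha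
  obtain ⟨v, hv⟩ := exists_solve _ hd (Pi.single 0 1)
  obtain ⟨β, r1, r2, r3, r4, r5⟩ := D.rel (ext v) 0 1 0 (by
    apply sys_of
    intro i
    rw [hv]
    by_cases hi : i = 0
    · subst hi
      rw [Pi.single_eq_same, Fin.val_zero, if_pos rfl]
      split_ifs <;> ring
    · have : (i : ℕ) ≠ 0 := fun h => hi (Fin.ext h)
      rw [Pi.single_eq_of_ne hi, if_neg this]
      simp)
  have e0 := ext_val v 0
  have em := ext_val v (Fin.last m)
  rw [Fin.val_zero] at e0
  rw [Fin.val_last] at em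
  have ha := D.ha
  have hβ : β = - (chi p ℂ 2 * b / a) := by
    field_simp
    linear_combination -r4
  refine ⟨v, hv, ?_, ?_⟩
  · rw [← e0, r1, hβ]; ring
  · rw [← em, r2, hβ]; field_simp; ring

lemma Dat.detTm : (T p ℂ m).det = chi p ℂ 2 * b := by
  obtain ⟨v, hv, h0, -⟩ := D.v_T
  have h := minor_zero _ v hv
  rw [T_sub] at h
  rw [h, D.hdet, h0]
  have ha := D.ha
  field_simp

lemma Dat.even : m % 2 = 0 := by
  have := D.hm
  have := D.h1
  omega

lemma Dat.detC : (CC p ℂ m).det = chi p ℂ 2 * (b - a) := by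
  obtain ⟨v, hv, -, hl⟩ := D.v_T
  have h := minor_last _ v hv
  have hm : (-1 : ℂ) ^ m = 1 := (Nat.even_iff.mpr D.even).neg_one_pow
  rw [CC, h, D.hdet, hl, hm]
  have ha := D.ha
  field_simp
  ring

lemma Dat.q0 : chi p ℂ 2 ≠ 0 := by
  intro h
  have := D.q2
  rw [h] at this
  norm_num at this

lemma Dat.c_T : ∃ c : Fin m → ℂ, (T p ℂ m).mulVec c = (fun _ => 1) ∧
    ∑ j, c j = - (chi p ℂ 2 * a / b) := by
  have hd : (T p ℂ m).det ≠ 0 := by rw [D.detTm]; exact mul_ne_zero D.q0 D.hb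
  obtain ⟨c, hc⟩ := exists_solve _ hd (fun _ => 1)
  refine ⟨c, hc, ?_⟩
  obtain ⟨β, r1, r2, r3, r4, r5⟩ := D.rel (shift c) 1
    (∑ j ∈ range (m + 1), chi p ℂ (((0 : ℕ) : ZMod p) - (j : ZMod p)) * shift c j - 1) 0 (by
      intro i hi
      rw [Finset.mem_range] at hi
      by_cases h0 : i = 0
      · subst h0; simp
      · obtain ⟨k, rfl⟩ := Nat.exists_eq_succ_of_ne_zero h0
        rw [sum_shift le_rfl (fun j => chi p ℂ (((k.succ : ℕ) : ZMod p) - (j : ZMod p)))]
        have h2 := congrFun hc ⟨k, by omega⟩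
        rw [row_T] at h2
        rw [if_neg h0]
        simp only [add_zero, ite_self, add_zero]
        rw [← h2]
        apply Finset.sum_congr rfl
        intro j _
        congr 2
        push_cast
        ring)
  rw [sum_shift' le_rfl] at r3
  set κ := (∑ j ∈ range (m + 1), chi p ℂ (((0 : ℕ) : ZMod p) - (j : ZMod p)) * shift c j - 1) with hκ
  have hβ : β = 0 := by
    rw [shift, if_pos rfl] at r1
    linear_combination -r1
  have hq0 := D.q0
  have hb := D.hb
  have hκb : κ = - 1 / b := by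
    rw [hβ] at r4
    have h3 : 1 + κ * b = 0 := by
      have : chi p ℂ 2 * (1 + κ * b) = 0 := by linear_combination -r4
      exact (mul_eq_zero.mp this).resolve_left hq0
    field_simp
    linear_combination h3
  rw [r3, hβ, hκb]
  field_simp
  ring

lemma Dat.detTk {k : ℕ} (hk : m = k + 1) : (T p ℂ k).det = a - 2 * b := by
  have hd : (T p ℂ (k + 1)).det ≠ 0 := by rw [← hk, D.detTm]; exact mul_ne_zero D.q0 D.hb
  obtain ⟨q, hq⟩ := exists_solve _ hd (Pi.single 0 1)
  have h := minor_zero _ q hq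
  have hdk : (T p ℂ (k + 1)).det = chi p ℂ 2 * b := by rw [← hk, D.detTm]
  rw [T_sub, hdk] at h
  have hr : ∀ i ∈ range (m + 1), ∑ j ∈ range (m + 1), chi p ℂ ((i : ZMod p) - (j : ZMod p)) * ext q j =
      0 + (if i = 0 then 1 else 0) + (if i = m then
        ∑ j ∈ range (m + 1), chi p ℂ ((m : ZMod p) - (j : ZMod p)) * ext q j else 0) := by
    intro i hi
    rw [Finset.mem_range] at hi
    have hm0 := D.pos
    by_cases h0 : i = m
    · subst h0
      rw [if_neg (by omega), if_pos rfl]; ring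
    · rw [if_neg h0, sum_ext (by omega) (fun j => chi p ℂ ((i : ZMod p) - (j : ZMod p)))]
      have h2 := congrFun hq ⟨i, by omega⟩
      rw [row_T] at h2
      rw [add_zero, zero_add]
      refine h2.trans ?_
      by_cases hi0 : i = 0
      · subst hi0
        rw [if_pos rfl]
        exact Pi.single_eq_same _ _
      · rw [if_neg hi0]
        exact Pi.single_eq_of_ne (fun h => hi0 (congrArg Fin.val h)) _
  obtain ⟨β, r1, r2, r3, r4, r5⟩ := D.rel (ext q) 0 1 _ hr
  set κ := ∑ j ∈ range (m + 1), chi p ℂ ((m : ZMod p) - (j : ZMod p)) * ext q j with hκ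
  have hm' : ext q m = 0 := by
    rw [Pool.Agent.Helper184.Chapman.ext, dif_neg (by omega)]
  have e0 := ext_val q 0
  rw [Fin.val_zero] at e0
  have hβ : β = - chi p ℂ 2 := by rw [hm'] at r2; linear_combination -r2
  have hq0 := D.q0
  have hb := D.hb
  rw [hβ] at r4
  have h3 : κ = a / b - 1 := by
    have h4 : chi p ℂ 2 * (a - (1 + κ) * b) = 0 := by linear_combination r4
    have h5 := (mul_eq_zero.mp h4).resolve_left hq0
    field_simp
    linear_combination -h5
  rw [h, ← e0, r1, hβ, h3]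
  have := D.q2
  field_simp
  linear_combination (a - 2 * b) * this

lemma Dat.c_Tk {k : ℕ} (hk : m = k + 1) (hne : a - 2 * b ≠ 0) :
    ∃ c : Fin k → ℂ, (T p ℂ k).mulVec c = (fun _ => 1) ∧
      ∑ j, c j = chi p ℂ 2 * (2 * a - p * b) / (a - 2 * b) := by
  have hd : (T p ℂ k).det ≠ 0 := by rw [D.detTk hk]; exact hne
  obtain ⟨c, hc⟩ := exists_solve _ hd (fun _ => 1)
  refine ⟨c, hc, ?_⟩
  have hm0 := D.pos
  obtain ⟨β, r1, r2, r3, r4, r5⟩ := D.rel (shift c) 1
    (∑ j ∈ range (m + 1), chi p ℂ (((0 : ℕ) : ZMod p) - (j : ZMod p)) * shift c j - 1)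
    (∑ j ∈ range (m + 1), chi p ℂ ((m : ZMod p) - (j : ZMod p)) * shift c j - 1) (by
      intro i hi
      rw [Finset.mem_range] at hi
      by_cases h0 : i = 0
      · subst h0
        rw [if_pos rfl, if_neg (by omega)]
        ring
      by_cases h1 : i = m
      · rw [if_neg h0, if_pos h1, h1]
        ring
      · obtain ⟨l, rfl⟩ := Nat.exists_eq_succ_of_ne_zero h0
        rw [sum_shift (by omega) (fun j => chi p ℂ (((l.succ : ℕ) : ZMod p) - (j : ZMod p)))]
        have h2 := congrFun hc ⟨l, by omega⟩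
        rw [row_T] at h2
        rw [if_neg h0, if_neg h1]
        simp only [add_zero]
        rw [← h2]
        apply Finset.sum_congr rfl
        intro j _
        congr 2
        push_cast
        ring)
  rw [sum_shift' (by omega)] at r3
  set κ := (∑ j ∈ range (m + 1), chi p ℂ (((0 : ℕ) : ZMod p) - (j : ZMod p)) * shift c j - 1) with hκ
  set μ := (∑ j ∈ range (m + 1), chi p ℂ ((m : ZMod p) - (j : ZMod p)) * shift c j - 1) with hμ
  rw [shift, if_pos rfl] at r1
  rw [shift, if_neg (by omega), Pool.Agent.Helper184.Chapman.ext, dif_neg (by omega)] at r2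
  have hq0 := D.q0
  have hb := D.hb
  have hμκ : μ = κ := by
    have h4 : chi p ℂ 2 * (μ - κ) = 0 := by linear_combination r2 - r1
    linear_combination (mul_eq_zero.mp h4).resolve_left hq0
  have hβ : β = - (chi p ℂ 2 * κ) := by linear_combination -r2
  rw [hμκ, hβ] at r4
  have h5 : κ = 1 / (a - 2 * b) := by
    have h4 : chi p ℂ 2 * (κ * (a - 2 * b) - 1) = 0 := by linear_combination r4
    have h6 := (mul_eq_zero.mp h4).resolve_left hq0
    rw [eq_div_iff hne]
    linear_combination h6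
  rw [r3, hμκ, hβ, h5]
  field_simp
  ring

lemma Dat.c_C : ∃ c : Fin m → ℂ, (CC p ℂ m).mulVec c = (fun _ => 1) ∧
    ∑ j, c j = chi p ℂ 2 * (a - p * b) / (a - b) ∧
    ∑ j : Fin m, chi p ℂ (((j : ℕ) : ZMod p) + 1) * c j = 1 - m / (a - b) := by
  have hne := D.hne
  have hne' : b - a ≠ 0 := fun h => hne (by linear_combination -h)
  have hd : (CC p ℂ m).det ≠ 0 := by rw [D.detC]; exact mul_ne_zero D.q0 hne'
  obtain ⟨c, hc⟩ := exists_solve _ hd (fun _ => 1)
  refine ⟨c, hc, ?_⟩
  have hm0 := D.pos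
  obtain ⟨β, r1, r2, r3, r4, r5⟩ := D.rel (ext c) 1
    (∑ j ∈ range (m + 1), chi p ℂ (((0 : ℕ) : ZMod p) - (j : ZMod p)) * ext c j - 1) 0 (by
      intro i hi
      rw [Finset.mem_range] at hi
      by_cases h0 : i = 0
      · subst h0
        rw [if_pos rfl, if_neg (by omega)]
        ring
      · obtain ⟨l, rfl⟩ := Nat.exists_eq_succ_of_ne_zero h0
        rw [sum_ext (by omega) (fun j => chi p ℂ (((l.succ : ℕ) : ZMod p) - (j : ZMod p)))]
        have h2 := congrFun hc ⟨l, by omega⟩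
        rw [row_C] at h2
        rw [if_neg h0]
        simp only [add_zero, ite_self]
        rw [← h2]
        apply Finset.sum_congr rfl
        intro j _
        congr 2
        push_cast
        ring)
  rw [sum_ext' (by omega)] at r3
  rw [sum_ext (by omega) (fun j => chi p ℂ (-1 - (j : ZMod p)))] at r5
  set κ := (∑ j ∈ range (m + 1), chi p ℂ (((0 : ℕ) : ZMod p) - (j : ZMod p)) * ext c j - 1) with hκ
  rw [Pool.Agent.Helper184.Chapman.ext, dif_neg (by omega)] at r2
  have hq0 := D.q0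
  have hb := D.hb
  have hβ : β = - (chi p ℂ 2 * κ) := by linear_combination -r2
  rw [hβ] at r4 r5
  have h5 : κ = 1 / (a - b) := by
    have h4 : chi p ℂ 2 * (κ * (a - b) - 1) = 0 := by linear_combination r4
    have h6 := (mul_eq_zero.mp h4).resolve_left hq0
    rw [eq_div_iff hne]
    linear_combination h6
  refine ⟨?_, ?_⟩
  · rw [r3, hβ, h5]
    field_simp
    ring
  · have h6 : ∑ j : Fin m, chi p ℂ (((j : ℕ) : ZMod p) + 1) * c j =
        ∑ j : Fin m, chi p ℂ (-1 - ((j : ℕ) : ZMod p)) * c j := by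
      apply Finset.sum_congr rfl
      intro j _
      have h7 : (-1 - ((j : ℕ) : ZMod p)) = - (((j : ℕ) : ZMod p) + 1) := by ring
      rw [h7, chi_neg', et_one D.h1, one_mul]
    have hm2 : 2 ≤ m := by
      have := D.even; omega
    have hps := PP_second m D.hm (sc p) sc_prim hm2
    rw [et_one D.h1] at hps
    have hpm : (p : ℂ) = 2 * m + 1 := by
      have := congrArg (Nat.cast : ℕ → ℂ) D.hm
      push_cast at this; exact this
    rw [h6, r5, h5]
    have hq := D.q2
    field_simp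
    linear_combination (-(p : ℂ)) * hq + (1 / 2 : ℂ) * hps - (1 / 2 : ℂ) * hpm

end one

end Pool.Agent.R945.TP
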