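import Mathlib
import Pool.Agent.R945.TP.P1
import Pool.Agent.R945.LD.BThree
import Pool.Agent.R945.LD.Core

/-! Determinants of Toeplitz matrices of Legendre symbols, `p ≡ 3 (mod 4)`. -/

set_option autoImplicit false
set_option linter.unusedSectionVars false

namespace Pool.Agent.R945.TP

open Finset Matrix Pool.Agent.Helper184.Chapman

variable {p : ℕ} [Fact p.Prime]

lemma et_three {K : Type*} [Field K] (h3 : p % 4 = 3) : et p K = -1 := by
  have := chi_neg (K := K) h3 (1 : ZMod p)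
  rw [et, this, map_one]

/-- the data for `p ≡ 3 (mod 4)` -/
structure Dat3 (p : ℕ) [Fact p.Prime] (m : ℕ) (κ : ℂ) : Prop where
  hm : p = 2 * m + 1
  h3 : p % 4 = 3
  hκ : κ * κ = 1
  hP : (LD.PP (sc p)).eval 1 = κ * gaussSum (chi p ℂ) (sc p)

theorem dat3 (h3 : p % 4 = 3) (m : ℕ) (hm : p = 2 * m + 1) : ∃ κ, Dat3 p m κ := by
  have hp : p.Prime := Fact.out
  have hpC : (p : ℂ) ≠ 0 := by exact_mod_cast hp.ne_zero
  have h := gsq (K := ℂ) (by omega : p ≠ 2) two_ne_zero (sc p) sc_prim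
  rw [et_three h3] at h
  have hsq := LD.PP_one_sq h3 m hm (sc p) sc_prim
  have hg0 : gaussSum (chi p ℂ) (sc p) ≠ 0 := by
    intro h0
    rw [h0] at h
    apply hpC
    linear_combination h
  refine ⟨(LD.PP (sc p)).eval 1 / gaussSum (chi p ℂ) (sc p), hm, h3, ?_, ?_⟩
  · field_simp
    linear_combination hsq - h
  · field_simp

section three

variable {m : ℕ} {κ : ℂ} (D : Dat3 p m κ)
include D

lemma Dat3.pos : 0 < m := by
  have := D.hm
  have := D.h3
  omega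

lemma Dat3.two : p ≠ 2 := by
  have := D.h3
  rintro rfl
  omega

lemma Dat3.q2 : chi p ℂ 2 * chi p ℂ 2 = 1 := chi_sq (two_ne' D.two)

lemma Dat3.pC : (p : ℂ) ≠ 0 := by
  have hp : p.Prime := Fact.out
  exact_mod_cast hp.ne_zero

lemma Dat3.g2 : gaussSum (chi p ℂ) (sc p) * gaussSum (chi p ℂ) (sc p) = -p := by
  have h := gsq (K := ℂ) D.two two_ne_zero (sc p) sc_prim
  rw [et_three D.h3] at h
  linear_combination h

lemma Dat3.g0 : gaussSum (chi p ℂ) (sc p) ≠ 0 := by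
  intro h
  have := D.g2
  rw [h] at this
  exact D.pC (by linear_combination this)

lemma Dat3.q0 : chi p ℂ 2 ≠ 0 := by
  intro h
  have := D.q2
  rw [h] at this
  norm_num at this

/-- consequences of `rel` -/
lemma Dat3.rel (v : ℕ → ℂ) (s b0 bm : ℂ)
    (hv : ∀ i ∈ range (m + 1), ∑ j ∈ range (m + 1), chi p ℂ ((i : ZMod p) - (j : ZMod p)) * v j =
      s + (if i = 0 then b0 else 0) + (if i = m then bm else 0)) :
    v 0 = chi p ℂ 2 * (κ * s - bm) ∧
      v m = chi p ℂ 2 * (b0 - κ * s) ∧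
      ∑ j ∈ range (m + 1), v j = - (chi p ℂ 2 * (b0 - bm) * κ) ∧
      ∑ j ∈ range (m + 1), chi p ℂ (-1 - (j : ZMod p)) * v j =
        κ * s * p + s + b0 * (LD.PP (sc p)).coeff (2 * m - 2) - bm := by
  obtain ⟨β, r1, r2, r3, r4, r5, -⟩ := TP.rel m D.hm (sc p) sc_prim D.pos two_ne_zero D.pC v s b0 bm hv
  have he := et_three (K := ℂ) D.h3
  have hag := ag (sc p) D.two two_ne_zero D.pC sc_prim
  have hap := ap (sc p) D.pC
  have hPm := LD.PP_neg_one D.h3 m D.hm (sc p)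
  rw [he] at r1 r3 r4 r5
  rw [he] at hap
  have hq := D.q2
  have hg := D.g2
  have hg0 := D.g0
  have hκ := D.hκ
  have hP := D.hP
  rw [hPm, hP] at r3 r4
  set g := gaussSum (chi p ℂ) (sc p) with hgd
  set A := aa (sc p) with hA
  set q := chi p ℂ 2 with hqd
  have hA0 : A ≠ 0 := by
    intro h
    rw [h, zero_mul] at hag
    rw [← hag] at hq
    norm_num at hq
  have hβ : β = - (q * κ * s) := by
    have h1 : β * κ = - (q * s) := by
      apply mul_left_cancel₀ (mul_ne_zero two_ne_zero hg0 : (2 : ℂ) * g ≠ 0)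
      linear_combination r4 + 2 * s * hap
    linear_combination κ * h1 - β * hκ
  refine ⟨?_, ?_, ?_, ?_⟩
  · rw [r1, hβ]; linear_combination (-bm) * hag
  · rw [r2, hβ]; linear_combination b0 * hag
  · linear_combination (1 / 2 : ℂ) * r3 - (b0 - bm) * κ * hag
  · apply mul_left_cancel₀ hA0
    rw [r5, hβ]
    have : -(q * κ * s) * g = A * (κ * s * p) := by
      linear_combination (-(κ * s)) * hap
    linear_combination this

lemma Dat3.detT' : (T p ℂ (m + 1)).det = 1 := by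
  have habs : (T p ℤ (m + 1)).det.natAbs = 1 :=
    det_unit (m + 1) (fun l _ v hv => sys_mod D.h3 m D.hm l v hv)
  have hnn : 0 ≤ (T p ℤ (m + 1)).det := by
    have h := det_skew_nonneg (T p ℝ (m + 1)) (by
      ext i j
      have := chi_neg (K := ℝ) D.h3 (((i : ℕ) : ZMod p) - ((j : ℕ) : ZMod p))
      rw [neg_sub, chi_apply, chi_apply] at this
      simpa [T] using this)
    rw [← det_cast] at h
    exact_mod_cast h
  have h1 : (T p ℤ (m + 1)).det = 1 := by omega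
  rw [← det_cast, h1]; simp

lemma Dat3.v_T : ∃ v : Fin (m + 1) → ℂ, (T p ℂ (m + 1)).mulVec v = Pi.single 0 1 ∧
    v 0 = 0 ∧ v (Fin.last m) = chi p ℂ 2 ∧ ∑ j, v j = - (chi p ℂ 2 * κ) := by
  have hd : (T p ℂ (m + 1)).det ≠ 0 := by rw [D.detT']; norm_num
  obtain ⟨v, hv⟩ := exists_solve _ hd (Pi.single 0 1)
  obtain ⟨r1, r2, r3, r5⟩ := D.rel (ext v) 0 1 0 (by
    apply sys_of
    intro i
    rw [hv]
    by_cases hi : i = 0
    · subst hi
      rw [Pi.single_eq_same, Fin.val_zero, if_pos rfl]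
      split_ifs <;> ring
    · have : (i : ℕ) ≠ 0 := fun h => hi (Fin.ext h)
      rw [Pi.single_eq_of_ne hi, if_neg this]
      simp)
  have e0 := ext_val v 0
  have em := ext_val v (Fin.last m)
  rw [Fin.val_zero] at e0
  rw [Fin.val_last] at em
  rw [ext_sum] at r3
  refine ⟨v, hv, ?_, ?_, ?_⟩
  · rw [← e0, r1]; ring
  · rw [← em, r2]; ring
  · rw [r3]; ring

/-- solution of `T' c = 1` -/
lemma Dat3.c_T' : ∃ c : Fin (m + 1) → ℂ, (T p ℂ (m + 1)).mulVec c = (fun _ => 1) ∧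
    c 0 = chi p ℂ 2 * κ ∧ ∑ j, c j = 0 := by
  have hd : (T p ℂ (m + 1)).det ≠ 0 := by rw [D.detT']; norm_num
  obtain ⟨c, hc⟩ := exists_solve _ hd (fun _ => 1)
  obtain ⟨r1, r2, r3, r5⟩ := D.rel (ext c) 1 0 0 (by
    apply sys_of
    intro i
    rw [hc]
    simp)
  have e0 := ext_val c 0
  rw [Fin.val_zero] at e0
  rw [ext_sum] at r3
  refine ⟨c, hc, ?_, ?_⟩
  · rw [← e0, r1]; ring
  · rw [r3]; ring

omit D in
lemma TX_sub (K : Type*) [CommRing K] (n : ℕ) (x : K) :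
    (TX p K (n + 1) x).submatrix Fin.succ Fin.succ = TX p K n x := by
  ext i j
  simp [T, TX]

/-- `det (T_m + J) = 1` -/
lemma Dat3.detTX : (TX p ℂ m 1).det = 1 := by
  obtain ⟨v, hv, hv0, -, hvs⟩ := D.v_T
  obtain ⟨c, hc, hc0, hcs⟩ := D.c_T'
  have h1 : (TX p ℂ (m + 1) 1).det = 1 := by
    rw [TX_det (m + 1) c hc 1, hcs, D.detT']; ring
  have h2 := minor_zero (TX p ℂ (m + 1) 1) (v + (chi p ℂ 2 * κ) • c) (by
    funext i
    rw [TX_mulVec, Matrix.mulVec_add, Matrix.mulVec_smul, hv, hc]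
    simp only [Pi.add_apply, Pi.smul_apply, smul_eq_mul, Finset.sum_add_distrib, ← Finset.mul_sum, hvs, hcs]
    ring)
  rw [TX_sub] at h2
  rw [h2, h1, Pi.add_apply, Pi.smul_apply, hv0, hc0, smul_eq_mul]
  linear_combination (κ * κ) * D.q2 + D.hκ

lemma Dat3.neg (k : ZMod p) : chi p ℂ (-k) = - chi p ℂ k := chi_neg D.h3 k

lemma Dat3.skewT {n : ℕ} (c : Fin n → ℂ) : ∑ i, c i * (T p ℂ n).mulVec c i = 0 := by
  have h1 : ∑ i, c i * (T p ℂ n).mulVec c i = - ∑ i, c i * (T p ℂ n).mulVec c i := by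
    conv_lhs =>
      simp only [row_T, Finset.mul_sum]
      rw [Finset.sum_comm]
    rw [← Finset.sum_neg_distrib]
    apply Finset.sum_congr rfl
    intro i _
    rw [row_T, Finset.mul_sum, ← Finset.sum_neg_distrib]
    apply Finset.sum_congr rfl
    intro j _
    rw [← neg_sub ((i : ℕ) : ZMod p), D.neg]
    ring
  have h2 : (2 : ℂ) * ∑ i, c i * (T p ℂ n).mulVec c i = 0 := by linear_combination h1
  exact (mul_eq_zero.mp h2).resolve_left two_ne_zero

/-- the determinant of order `(p-1)/2` -/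
theorem Dat3.main_T (x y z w : ℂ) :
    (Matrix.of fun i j : Fin m => T p ℂ m i j + x + chi p ℂ ((i : ℕ) : ZMod p) * y
      + chi p ℂ ((j : ℕ) : ZMod p) * z + chi p ℂ ((i : ℕ) : ZMod p) * chi p ℂ ((j : ℕ) : ZMod p) * w).det = x := by
  obtain ⟨v, hv, hv0, -, hvs⟩ := D.v_T
  have hm0 := D.pos
  obtain ⟨k, rfl⟩ : ∃ k, m = k + 1 := ⟨m - 1, by omega⟩
  set c : Fin (k + 1) → ℂ := fun j => - (chi p ℂ 2 * κ) * v j.succ with hc
  have hcs : ∑ j, c j = 1 := by
    rw [hc, ← Finset.mul_sum]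
    rw [Fin.sum_univ_succ, hv0] at hvs
    have : ∑ i : Fin (k + 1), v i.succ = - (chi p ℂ 2 * κ) := by rw [← hvs]; ring
    rw [this]
    linear_combination (κ * κ) * D.q2 + D.hκ
  have hTc : (T p ℂ (k + 1)).mulVec c = 0 := by
    funext i
    have h2 := congrFun hv i.succ
    rw [row_T, Fin.sum_univ_succ, hv0, Pi.single_eq_of_ne (Fin.succ_ne_zero i), mul_zero, zero_add] at h2
    rw [row_T, Pi.zero_apply]
    have h4 : ∑ j : Fin (k + 1), chi p ℂ (((i : ℕ) : ZMod p) - ((j : ℕ) : ZMod p)) * c j =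
        - (chi p ℂ 2 * κ) * ∑ j : Fin (k + 1), chi p ℂ (((i.succ : ℕ) : ZMod p) - ((j.succ : ℕ) : ZMod p)) * v j.succ := by
      rw [Finset.mul_sum]
      apply Finset.sum_congr rfl
      intro j _
      have h5 : (((i.succ : ℕ) : ZMod p) - ((j.succ : ℕ) : ZMod p)) = (((i : ℕ) : ZMod p) - ((j : ℕ) : ZMod p)) := by
        rw [Fin.val_succ, Fin.val_succ]; push_cast; ring
      rw [h5, hc]
      ring
    rw [h4, h2, mul_zero]
  have hA : (TX p ℂ (k + 1) 1).mulVec c = fun _ => 1 := by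
    funext i
    rw [TX_mulVec, hTc, hcs]; simp
  have e1 : ∑ j : Fin (k + 1), (Pi.single (0 : Fin (k + 1)) (1 : ℂ) : Fin (k + 1) → ℂ) j = 1 := by
    simp [Pi.single_apply]
  have hr0 : chi p ℂ (((0 : Fin (k + 1)) : ℕ) : ZMod p) = 0 := by
    simp [chi_apply]
  have hd : (TX p ℂ (k + 1) 1).mulVec (Pi.single 0 1 - c) = fun i : Fin (k + 1) => chi p ℂ ((i : ℕ) : ZMod p) := by
    rw [Matrix.mulVec_sub, hA]
    funext i
    rw [Pi.sub_apply, TX_mulVec, e1]
    have : (T p ℂ (k + 1)).mulVec (Pi.single 0 1) i = chi p ℂ ((i : ℕ) : ZMod p) := by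
      rw [row_T]
      simp [Pi.single_apply]
    rw [this]; ring
  have hρ : ∑ j : Fin (k + 1), chi p ℂ ((j : ℕ) : ZMod p) * c j = 0 := by
    have h2 := congrFun hTc 0
    rw [row_T, Pi.zero_apply] at h2
    rw [← neg_eq_zero, ← Finset.sum_neg_distrib, ← h2]
    apply Finset.sum_congr rfl
    intro j _
    rw [Fin.val_zero, Nat.cast_zero, zero_sub, D.neg]
    ring
  have hδ : ∑ j : Fin (k + 1), ((Pi.single (0 : Fin (k + 1)) (1 : ℂ) : Fin (k + 1) → ℂ) - c) j = 0 := by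
    simp only [Pi.sub_apply, Finset.sum_sub_distrib]
    rw [e1, hcs]; ring
  have hτ : ∑ j : Fin (k + 1), chi p ℂ ((j : ℕ) : ZMod p) * ((Pi.single (0 : Fin (k + 1)) (1 : ℂ) : Fin (k + 1) → ℂ) - c) j = 0 := by
    simp only [Pi.sub_apply, mul_sub, Finset.sum_sub_distrib]
    rw [hρ, sub_zero]
    have : ∑ j : Fin (k + 1), chi p ℂ ((j : ℕ) : ZMod p) * (Pi.single (0 : Fin (k + 1)) (1 : ℂ) : Fin (k + 1) → ℂ) j =
        chi p ℂ (((0 : Fin (k + 1)) : ℕ) : ZMod p) := by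
      simp [Pi.single_apply]
    rw [this, hr0]
  have h := det4 (TX p ℂ (k + 1) 1) c (Pi.single 0 1 - c) _ (fun j => chi p ℂ ((j : ℕ) : ZMod p)) hA hd (x - 1) y z w
  rw [hcs, hρ, hδ, hτ, D.detTX] at h
  have e : (Matrix.of fun i j : Fin (k + 1) => T p ℂ (k + 1) i j + x + chi p ℂ ((i : ℕ) : ZMod p) * y
      + chi p ℂ ((j : ℕ) : ZMod p) * z + chi p ℂ ((i : ℕ) : ZMod p) * chi p ℂ ((j : ℕ) : ZMod p) * w) =
      (Matrix.of fun i j : Fin (k + 1) => TX p ℂ (k + 1) 1 i j + (x - 1) + chi p ℂ ((i : ℕ) : ZMod p) * y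
      + chi p ℂ ((j : ℕ) : ZMod p) * z + chi p ℂ ((i : ℕ) : ZMod p) * chi p ℂ ((j : ℕ) : ZMod p) * w) := by
    ext i j
    simp only [Matrix.of_apply, TX]
    ring
  rw [e, h]
  ring

/-- the determinant of order `(p-3)/2` -/
theorem Dat3.main_Tk {k : ℕ} (hk : m = k + 2) (x y z w : ℂ) :
    (Matrix.of fun i j : Fin (k + 1) => T p ℂ (k + 1) i j + x + chi p ℂ ((i : ℕ) : ZMod p) * y
      + chi p ℂ ((j : ℕ) : ZMod p) * z + chi p ℂ ((i : ℕ) : ZMod p) * chi p ℂ ((j : ℕ) : ZMod p) * w).det =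
    w * x + (1 + y) * (1 - z) := by
  have hdZ : (T p ℤ (k + 1)).det = 1 := by
    have habs : (T p ℤ (k + 1)).det.natAbs = 1 := by
      have := det_unit (p := p) (m - 1) (fun l _ v hv => mid_mod D.h3 m D.hm D.pos l v hv)
      rw [hk] at this
      exact this
    have hnn : 0 ≤ (T p ℤ (k + 1)).det := by
      have h := det_skew_nonneg (T p ℝ (k + 1)) (by
        ext i j
        have := chi_neg (K := ℝ) D.h3 (((i : ℕ) : ZMod p) - ((j : ℕ) : ZMod p))
        rw [neg_sub, chi_apply, chi_apply] at this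
        simpa [T] using this)
      rw [← det_cast] at h
      exact_mod_cast h
    omega
  have hd : (T p ℂ (k + 1)).det = 1 := by rw [← det_cast, hdZ]; simp
  obtain ⟨c, hc⟩ := exists_solve (T p ℂ (k + 1)) (by rw [hd]; norm_num) (fun _ => 1)
  have hσ : ∑ j, c j = 0 := by
    have h := D.skewT c
    rw [hc] at h
    simpa using h
  have h := det4_col (T p ℂ (k + 1)) c (fun j => chi p ℂ ((j : ℕ) : ZMod p)) hc x y z w
  have h0 : ∀ i : Fin (k + 1), T p ℂ (k + 1) i 0 = chi p ℂ ((i : ℕ) : ZMod p) := by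
    intro i; rw [T_apply]; simp
  simp only [h0] at h
  rw [h]
  have hr0 : chi p ℂ (((0 : Fin (k + 1)) : ℕ) : ZMod p) = 0 := by
    simp [chi_apply]
  have hρ : ∑ j : Fin (k + 1), chi p ℂ ((j : ℕ) : ZMod p) * c j = -1 := by
    have h2 := congrFun hc 0
    rw [row_T] at h2
    rw [← h2, ← Finset.sum_neg_distrib]
    apply Finset.sum_congr rfl
    intro j _
    rw [Fin.val_zero, Nat.cast_zero, zero_sub, D.neg]
    ring
  rw [hr0, hρ, hσ, hd]
  ring

lemma Dat3.odd : m % 2 = 1 := by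
  have := D.hm
  have := D.h3
  omega

lemma Dat3.detC : (CC p ℂ m).det = - chi p ℂ 2 := by
  obtain ⟨v, hv, -, hl, -⟩ := D.v_T
  have h := minor_last _ v hv
  have hm : (-1 : ℂ) ^ m = -1 := (Nat.odd_iff.mpr D.odd).neg_one_pow
  rw [CC, h, D.detT', hl, hm]
  ring

lemma Dat3.c_C (hm2 : 2 ≤ m) : ∃ c : Fin m → ℂ, (CC p ℂ m).mulVec c = (fun _ => 1) ∧
    ∑ j, c j = - chi p ℂ 2 ∧
    ∑ j : Fin m, chi p ℂ (((j : ℕ) : ZMod p) + 1) * c j = -1 - κ * (m + 1) := by
  have hd : (CC p ℂ m).det ≠ 0 := by rw [D.detC]; exact neg_ne_zero.mpr D.q0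
  obtain ⟨c, hc⟩ := exists_solve _ hd (fun _ => 1)
  refine ⟨c, hc, ?_⟩
  have hm0 := D.pos
  obtain ⟨r1, r2, r3, r5⟩ := D.rel (ext c) 1
    (∑ j ∈ range (m + 1), chi p ℂ (((0 : ℕ) : ZMod p) - (j : ZMod p)) * ext c j - 1) 0 (by
      intro i hi
      rw [Finset.mem_range] at hi
      by_cases h0 : i = 0
      · subst h0
        rw [if_pos rfl, if_neg (by omega)]
        ring
      · obtain ⟨l, rfl⟩ := Nat.exists_eq_succ_of_ne_zero h0
        rw [sum_ext (by omega) (fun j => chi p ℂ (((l.succ : ℕ) : ZMod p) - (j : ZMod p)))]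
        have h2 := congrFun hc ⟨l, by omega⟩
        rw [row_C] at h2
        rw [if_neg h0]
        simp only [add_zero, ite_self]
        rw [← h2]
        apply Finset.sum_congr rfl
        intro j _
        congr 2
        push_cast
        ring)
  rw [sum_ext' (by omega)] at r3
  rw [sum_ext (by omega) (fun j => chi p ℂ (-1 - (j : ZMod p)))] at r5
  set b0 := (∑ j ∈ range (m + 1), chi p ℂ (((0 : ℕ) : ZMod p) - (j : ZMod p)) * ext c j - 1) with hb0
  rw [Pool.Agent.Helper184.Chapman.ext, dif_neg (by omega)] at r2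
  have hq0 := D.q0
  have hb : b0 = κ := by
    have := (mul_eq_zero.mp r2.symm).resolve_left hq0
    linear_combination this
  refine ⟨?_, ?_⟩
  · rw [r3, hb]
    linear_combination (- chi p ℂ 2) * D.hκ
  · have h6 : ∑ j : Fin m, chi p ℂ (((j : ℕ) : ZMod p) + 1) * c j =
        - ∑ j : Fin m, chi p ℂ (-1 - ((j : ℕ) : ZMod p)) * c j := by
      rw [← Finset.sum_neg_distrib]
      apply Finset.sum_congr rfl
      intro j _
      have h7 : (-1 - ((j : ℕ) : ZMod p)) = - (((j : ℕ) : ZMod p) + 1) := by ring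
      rw [h7, D.neg]; ring
    have hps := PP_second m D.hm (sc p) sc_prim hm2
    rw [et_three D.h3] at hps
    have hpm : (p : ℂ) = 2 * m + 1 := by
      have := congrArg (Nat.cast : ℕ → ℂ) D.hm
      push_cast at this; exact this
    rw [h6, r5, hb]
    linear_combination (-κ / 2) * hps - (κ / 2) * hpm

/-- the shifted determinant -/
theorem Dat3.main_C (hm2 : 2 ≤ m) (x y z w : ℂ) :
    (Matrix.of fun i j : Fin m => CC p ℂ m i j + x + chi p ℂ (((i : ℕ) : ZMod p) + 1) * y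
      + chi p ℂ (((j : ℕ) : ZMod p) + 1) * z
      + chi p ℂ (((i : ℕ) : ZMod p) + 1) * chi p ℂ (((j : ℕ) : ZMod p) + 1) * w).det =
    (w + 1) * x - y * z + chi p ℂ 2 * ((y + 1) * (z - 1) - w * (x + 1))
      - chi p ℂ 2 * κ * (m + 1) * (w * x - (y + 1) * z) := by
  obtain ⟨c, hc, hs, hρ⟩ := D.c_C hm2
  have hd := D.detC
  obtain ⟨k, hk⟩ : ∃ k, m = k + 1 := ⟨m - 1, by omega⟩
  have key : ∀ (k : ℕ) (c : Fin (k + 1) → ℂ), (CC p ℂ (k + 1)).mulVec c = (fun _ => 1) →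
      (Matrix.of fun i j : Fin (k + 1) => CC p ℂ (k + 1) i j + x + chi p ℂ (((i : ℕ) : ZMod p) + 1) * y
      + chi p ℂ (((j : ℕ) : ZMod p) + 1) * z
      + chi p ℂ (((i : ℕ) : ZMod p) + 1) * chi p ℂ (((j : ℕ) : ZMod p) + 1) * w).det =
      (CC p ℂ (k + 1)).det * ((1 + y + w) + (∑ j, c j) * ((1 + w) * x - y * z) +
        (∑ j : Fin (k + 1), chi p ℂ (((j : ℕ) : ZMod p) + 1) * c j) * ((1 + y) * z - w * x)) := by
    intro k c hc
    have h := det4_col (CC p ℂ (k + 1)) c (fun j => chi p ℂ (((j : ℕ) : ZMod p) + 1)) hc x y z w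
    have h0 : ∀ i : Fin (k + 1), CC p ℂ (k + 1) i 0 = chi p ℂ (((i : ℕ) : ZMod p) + 1) := by
      intro i; rw [CC_apply]; simp
    simp only [h0] at h
    rw [h]
    have hr0 : chi p ℂ ((((0 : Fin (k + 1)) : ℕ) : ZMod p) + 1) = 1 := by
      simp [chi_apply]
    rw [hr0]
    ring
  subst hk
  rw [key k c hc, hs, hρ, hd]
  have hq := D.q2
  linear_combination ((1 + w) * x - y * z) * hq

end three

end Pool.Agent.R945.TP
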