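import Mathlib
import Pool.Agent.R945.TP.P3
import Pool.Agent.Results.MP_4f0cf1_nt.Full

/-! The sign `κ` for `p ≡ 3 (mod 4)`. -/

set_option autoImplicit false
set_option linter.unusedSectionVars false

namespace Pool.Agent.R945.TP

open Finset Matrix Pool.Agent.Helper184.Chapman Module NumberField

variable {p : ℕ} [Fact p.Prime]

lemma c_zero_fact (m : ℕ) (hm : p = 2 * m + 1) (hm0 : 0 < m) (v : ℕ → ZMod p)
    (hv : ∀ i ∈ range (m + 1),
      ∑ j ∈ range (m + 1), chi p (ZMod p) ((i : ZMod p) - (j : ZMod p)) * v j = 1) :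
    v 0 * (m.factorial : ZMod p) = 1 := by
  have hp2 : p ≠ 2 := by omega
  have hp : p.Prime := Fact.out
  have hchi : ∀ a : ZMod p, chi p (ZMod p) a = a ^ m := by
    intro a
    rw [chi_apply, quadraticChar_eq_pow_of_char_ne_two' (by rw [ZMod.ringChar_zmod_n]; exact hp2),
      ZMod.card]
    congr 1
    omega
  set f : Polynomial (ZMod p) := ∑ j ∈ range (m + 1), Polynomial.C (v j) * (Polynomial.X - Polynomial.C (j : ZMod p)) ^ m with hf
  have hfdeg : (f - 1).natDegree ≤ m := by
    refine (Polynomial.natDegree_sub_le _ _).trans ?_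
    rw [Polynomial.natDegree_one, max_le_iff]
    refine ⟨?_, by omega⟩
    rw [hf]
    apply Polynomial.natDegree_sum_le_of_forall_le
    intro j _
    refine (Polynomial.natDegree_C_mul_le _ _).trans ?_
    rw [Polynomial.natDegree_pow, Polynomial.natDegree_X_sub_C, mul_one]
  have hinj : Set.InjOn (fun i : ℕ => (i : ZMod p)) (range (m + 1)) := by
    intro i hi j hj h
    rw [Finset.mem_coe, Finset.mem_range] at hi hj
    have := congrArg ZMod.val h
    simp only at this
    rwa [ZMod.val_natCast_of_lt (by omega), ZMod.val_natCast_of_lt (by omega)] at this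
  have hf0 : f - 1 = 0 := by
    apply Polynomial.eq_zero_of_natDegree_lt_card_of_eval_eq_zero' (f - 1)
      ((range (m + 1)).image (fun i : ℕ => (i : ZMod p)))
    · intro x hx
      rw [Finset.mem_image] at hx
      obtain ⟨i, hi, rfl⟩ := hx
      have := hv i hi
      rw [Polynomial.eval_sub, Polynomial.eval_one, sub_eq_zero, hf, Polynomial.eval_finsetSum]
      rw [← this]
      apply Finset.sum_congr rfl
      intro j _
      rw [hchi]
      simp
      ring
    · rw [Finset.card_image_of_injOn hinj, Finset.card_range]; omega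
  have hf1 : f = 1 := sub_eq_zero.mp hf0
  have hmom : ∀ s ∈ range (m + 1), ∑ j ∈ range (m + 1), v j * (j : ZMod p) ^ s =
      if s = m then (-1) ^ m else 0 := by
    intro s hs
    rw [Finset.mem_range] at hs
    have h := congrArg (fun q => q.coeff (m - s)) hf1
    simp only [Polynomial.coeff_one] at h
    rw [hf, Polynomial.finsetSum_coeff] at h
    have e : ∀ j ∈ range (m + 1), (Polynomial.C (v j) * (Polynomial.X - Polynomial.C (j : ZMod p)) ^ m).coeff (m - s) =
        ((-1) ^ s * (m.choose (m - s) : ZMod p)) * (v j * (j : ZMod p) ^ s) := by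
      intro j _
      rw [Polynomial.coeff_C_mul, sub_eq_add_neg, ← Polynomial.C_neg, Polynomial.coeff_X_add_C_pow]
      have : m - (m - s) = s := by omega
      rw [this, neg_pow]
      ring
    rw [Finset.sum_congr rfl e, ← Finset.mul_sum] at h
    by_cases hsm : s = m
    · subst hsm
      rw [Nat.sub_self, if_pos rfl, Nat.choose_zero_right, Nat.cast_one, mul_one] at h
      rw [if_pos rfl]
      have h1 : (-1 : ZMod p) ^ s * (-1) ^ s = 1 := by rw [← pow_add, ← two_mul, pow_mul]; simp
      linear_combination (-1) ^ s * h - (∑ j ∈ range (s + 1), v j * (j : ZMod p) ^ s) * h1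
    · rw [if_neg hsm]
      rw [if_neg (by omega)] at h
      rcases mul_eq_zero.mp h with h | h
      · exfalso
        rcases mul_eq_zero.mp h with h | h
        · exact pow_ne_zero s (by simp) h
        · rw [ZMod.natCast_eq_zero_iff] at h
          have h5 : m.choose (m - s) ∣ m.factorial := by
            have := Nat.choose_mul_factorial_mul_factorial (n := m) (k := m - s) (by omega)
            exact ⟨(m - s).factorial * (m - (m - s)).factorial, by rw [← this]; ring⟩
          have h6 := (hp.dvd_factorial).mp (h.trans h5)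
          omega
      · exact h
  -- apply to `∏ (X - (j+1))`
  set G : Polynomial (ZMod p) := ∏ j ∈ range m, (Polynomial.X - Polynomial.C ((j + 1 : ℕ) : ZMod p)) with hG
  have hGm : G.Monic := by
    apply Polynomial.monic_prod_of_monic
    intro j _
    exact Polynomial.monic_X_sub_C _
  have hGd : G.natDegree = m := by
    rw [hG, Polynomial.natDegree_prod_of_monic _ _ (fun j _ => Polynomial.monic_X_sub_C _)]
    simp only [Polynomial.natDegree_X_sub_C, Finset.sum_const, Finset.card_range, smul_eq_mul, mul_one]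
  have h1 : ∑ j ∈ range (m + 1), v j * G.eval (j : ZMod p) = (-1) ^ m := by
    have h2 : ∀ j : ℕ, G.eval (j : ZMod p) = ∑ s ∈ range (m + 1), G.coeff s * (j : ZMod p) ^ s := by
      intro j
      rw [Polynomial.eval_eq_sum_range, hGd]
    simp only [h2, Finset.mul_sum]
    rw [Finset.sum_comm]
    have h4 : ∀ s ∈ range (m + 1), ∑ j ∈ range (m + 1), v j * (G.coeff s * (j : ZMod p) ^ s) =
        if s = m then (-1) ^ m else 0 := by
      intro s hs
      have h5 : ∑ j ∈ range (m + 1), v j * (G.coeff s * (j : ZMod p) ^ s) =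
          G.coeff s * ∑ j ∈ range (m + 1), v j * (j : ZMod p) ^ s := by
        rw [Finset.mul_sum]
        exact Finset.sum_congr rfl (fun j _ => by ring)
      rw [h5, hmom s hs]
      by_cases hsm : s = m
      · rw [if_pos hsm, hsm]
        have : G.coeff m = 1 := by rw [← hGd]; exact hGm.coeff_natDegree
        rw [this, one_mul]
      · rw [if_neg hsm, mul_zero]
    rw [Finset.sum_congr rfl h4, Finset.sum_ite_eq' (range (m + 1)) m, if_pos (by simp)]
  rw [Finset.sum_eq_single 0] at h1
  · have h2 : G.eval ((0 : ℕ) : ZMod p) = (-1) ^ m * (m.factorial : ZMod p) := by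
      rw [hG, Polynomial.eval_prod]
      simp only [Polynomial.eval_sub, Polynomial.eval_X, Polynomial.eval_C, Nat.cast_zero, zero_sub]
      rw [← Finset.prod_range_add_one_eq_factorial, Nat.cast_prod, Finset.prod_neg]
      simp
    rw [h2] at h1
    have h3 : (-1 : ZMod p) ^ m * (-1) ^ m = 1 := by rw [← pow_add, ← two_mul, pow_mul]; simp
    linear_combination (-1) ^ m * h1 + (1 - v 0 * (m.factorial : ZMod p)) * h3
  · intro j hj hj0
    rw [Finset.mem_range] at hj
    have : G.eval (j : ZMod p) = 0 := by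
      rw [hG, Polynomial.eval_prod]
      apply Finset.prod_eq_zero (i := j - 1)
      · rw [Finset.mem_range]; omega
      · rw [Polynomial.eval_sub, Polynomial.eval_X, Polynomial.eval_C, show j - 1 + 1 = j by omega, sub_self]
    rw [this, mul_zero]
  · intro h
    exact absurd (by simp) h

lemma fact_char (m : ℕ) : quadraticChar (ZMod p) (m.factorial : ZMod p) = ∏ j, LD.xv p m ℤ j := by
  rw [← Finset.prod_range_add_one_eq_factorial, Nat.cast_prod, map_prod,
    ← Fin.prod_univ_eq_prod_range (fun j => quadraticChar (ZMod p) ((j + 1 : ℕ) : ZMod p))]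
  apply Finset.prod_congr rfl
  intro j _
  simp [LD.xv, LD.J]

theorem Dat3.kappa {m : ℕ} {κ : ℂ} (D : Dat3 p m κ) (h5 : 5 ≤ p)
    (K : Type) [Field K] [NumberField K] (h2 : finrank ℚ K = 2) (β : K) (hβ : β ^ 2 = -(p : K)) :
    - (chi p ℂ 2 * κ) = (-1) ^ ((classNumber K - 1) / 2) := by
  have hp : p.Prime := Fact.out
  have hm := D.hm
  have h3 := D.h3
  have hm0 := D.pos
  have hm2 : 2 ≤ m := by omega
  have hdZ : (T p ℤ (m + 1)).det = 1 := by
    have := D.detT'
    rw [← det_cast] at this
    exact_mod_cast this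
  set c := ww p (m + 1) with hc
  have hTc : (T p ℤ (m + 1)).mulVec c = fun _ => 1 := by rw [hc, T_ww, hdZ]
  -- over `ℂ`
  have hC0 : ((c 0 : ℤ) : ℂ) = chi p ℂ 2 * κ := by
    obtain ⟨r1, r2, r3, r5⟩ := D.rel (ext (fun j => ((c j : ℤ) : ℂ))) 1 0 0 (by
      apply sys_of
      intro i
      rw [T_ww_K, hdZ]
      simp)
    have e0 := ext_val (fun j => ((c j : ℤ) : ℂ)) 0
    rw [Fin.val_zero] at e0
    rw [← e0, r1]; ring
  have hc1 : c 0 = 1 ∨ c 0 = -1 := by
    have h4 : ((c 0 : ℤ) : ℂ) * ((c 0 : ℤ) : ℂ) = 1 := by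
      rw [hC0]
      linear_combination (κ * κ) * D.q2 + D.hκ
    have h6 : c 0 * c 0 = 1 := by exact_mod_cast h4
    exact mul_self_eq_one_iff.mp h6
  -- over `ZMod p`
  have hZ := c_zero_fact m hm hm0 (ext (fun j => ((c j : ℤ) : ZMod p))) (by
    apply sys_of (m + 1) _ (fun _ => 1)
    intro i
    rw [T_ww_K, hdZ]
    simp)
  have e0 := ext_val (fun j => ((c j : ℤ) : ZMod p)) 0
  rw [Fin.val_zero] at e0
  rw [e0] at hZ
  have hq := congrArg (quadraticChar (ZMod p)) hZ
  rw [map_mul, map_one, fact_char] at hq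
  have hqc : quadraticChar (ZMod p) ((c 0 : ℤ) : ZMod p) = c 0 := by
    rcases hc1 with h | h
    · rw [h]; simp
    · rw [h]
      have := LD.q_neg_one_of_three h3
      push_cast
      exact this
  rw [hqc] at hq
  have hprod : ∏ j, LD.xv p m ℤ j = c 0 := by
    rcases hc1 with h | h
    · rw [h] at hq ⊢; linarith
    · rw [h] at hq ⊢; linarith
  have hxv : ∀ j ∈ (univ : Finset (Fin m)), LD.xv p m ℤ j = 1 ∨ LD.xv p m ℤ j = -1 := by
    intro j _
    exact mul_self_eq_one_iff.mp (LD.xv_sq hm j)
  have h4 := LD.prod_pm_mod_four univ (LD.xv p m ℤ) hxv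
  rw [hprod, Finset.card_univ, Fintype.card_fin,
    Pool.Agent.Results.MP_4f0cf1_nt.Full.half_sum p h5 h3 m hm K h2 β hβ] at h4
  set h := classNumber K with hh
  have hq2 : LD.q p 2 = if p % 8 = 7 then 1 else -1 := by
    show quadraticChar (ZMod p) 2 = _
    rw [quadraticChar_two (by rw [ZMod.ringChar_zmod_n]; exact D.two), ZMod.card,
      ZMod.χ₈_nat_eq_if_mod_eight, if_neg (by omega)]
    by_cases h8 : p % 8 = 7
    · rw [if_pos (by omega), if_pos h8]
    · rw [if_neg (by omega), if_neg h8]
  rw [hq2] at h4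
  rw [← hC0]
  have key : -(c 0) = (-1) ^ ((h - 1) / 2) := by
    have hodd : h % 2 = 1 := by
      by_cases h8 : p % 8 = 7
      · rw [if_pos h8] at h4
        rcases hc1 with e | e <;> rw [e] at h4 <;> omega
      · rw [if_neg h8] at h4
        rcases hc1 with e | e <;> rw [e] at h4 <;> omega
    rcases Nat.even_or_odd ((h - 1) / 2) with ⟨s, hs⟩ | ⟨s, hs⟩
    · rw [Even.neg_one_pow ⟨s, hs⟩]
      by_cases h8 : p % 8 = 7
      · rw [if_pos h8] at h4
        rcases hc1 with e | e <;> rw [e] at h4 ⊢ <;> omega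
      · rw [if_neg h8] at h4
        rcases hc1 with e | e <;> rw [e] at h4 ⊢ <;> omega
    · rw [Odd.neg_one_pow ⟨s, hs⟩]
      by_cases h8 : p % 8 = 7
      · rw [if_pos h8] at h4
        rcases hc1 with e | e <;> rw [e] at h4 ⊢ <;> omega
      · rw [if_neg h8] at h4
        rcases hc1 with e | e <;> rw [e] at h4 ⊢ <;> omega
  have := congrArg (Int.cast : ℤ → ℂ) key
  push_cast at this
  exact this

end Pool.Agent.R945.TP
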