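import Mathlib
import Pool.Agent.R945.TP.P1
import Pool.Agent.R945.RQ.E

/-! The four-parameter determinants for `p ≡ 1 (mod 4)`. -/

set_option autoImplicit false
set_option linter.unusedSectionVars false

namespace Pool.Agent.R945.TP

open Finset Matrix Pool.Agent.Helper184.Chapman Module NumberField

variable {p : ℕ} [Fact p.Prime]

section one
variable {m : ℕ} {a b : ℂ} (D : Dat p m a b)
include D

lemma Dat.neg (k : ZMod p) : chi p ℂ (-k) = chi p ℂ k := by
  rw [chi_neg', et_one D.h1, one_mul]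

theorem Dat.main_T (x y z w : ℂ) :
    (Matrix.of fun i j : Fin m => T p ℂ m i j + x + chi p ℂ ((i : ℕ) : ZMod p) * y
      + chi p ℂ ((j : ℕ) : ZMod p) * z + chi p ℂ ((i : ℕ) : ZMod p) * chi p ℂ ((j : ℕ) : ZMod p) * w).det =
    - a * x - chi p ℂ 2 * b * (w * x - (y + 1) * (z + 1)) := by
  obtain ⟨c, hc, hs⟩ := D.c_T
  have hd := D.detTm
  have hm0 := D.pos
  obtain ⟨k, hk⟩ : ∃ k, m = k + 1 := ⟨m - 1, by omega⟩
  have key : ∀ (k : ℕ) (c : Fin (k + 1) → ℂ), (T p ℂ (k + 1)).mulVec c = (fun _ => 1) →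
      (Matrix.of fun i j : Fin (k + 1) => T p ℂ (k + 1) i j + x + chi p ℂ ((i : ℕ) : ZMod p) * y
      + chi p ℂ ((j : ℕ) : ZMod p) * z + chi p ℂ ((i : ℕ) : ZMod p) * chi p ℂ ((j : ℕ) : ZMod p) * w).det =
      (T p ℂ (k + 1)).det * ((1 + y) * (1 + z) + x * ∑ j, c j - x * w) := by
    intro k c hc
    have h := det4_col (T p ℂ (k + 1)) c (fun j => chi p ℂ ((j : ℕ) : ZMod p)) hc x y z w
    have h0 : ∀ i : Fin (k + 1), T p ℂ (k + 1) i 0 = chi p ℂ ((i : ℕ) : ZMod p) := by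
      intro i; rw [T_apply]; simp
    simp only [h0] at h
    rw [h]
    have hr0 : chi p ℂ (((0 : Fin (k + 1)) : ℕ) : ZMod p) = 0 := by
      simp [chi_apply]
    have hρ : ∑ j : Fin (k + 1), chi p ℂ ((j : ℕ) : ZMod p) * c j = 1 := by
      have h2 := congrFun hc 0
      rw [row_T] at h2
      rw [← h2]
      apply Finset.sum_congr rfl
      intro j _
      rw [Fin.val_zero, Nat.cast_zero, zero_sub, D.neg]
    rw [hr0, hρ]
    ring
  subst hk
  rw [key k c hc, hs, hd]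
  have hb := D.hb
  have hq := D.q2
  field_simp
  linear_combination (-(a * x)) * hq

theorem Dat.main_Tk {k : ℕ} (hk : m = k + 2) (hZ : ∃ A B : ℤ, (A : ℂ) = a ∧ (B : ℂ) = b) (hpos : ∀ B : ℤ, (B : ℂ) = b → 0 < B)
    (x y z w : ℂ) :
    (Matrix.of fun i j : Fin (k + 1) => T p ℂ (k + 1) i j + x + chi p ℂ ((i : ℕ) : ZMod p) * y
      + chi p ℂ ((j : ℕ) : ZMod p) * z + chi p ℂ ((i : ℕ) : ZMod p) * chi p ℂ ((j : ℕ) : ZMod p) * w).det =
    chi p ℂ 2 * (2 * a - p * b) * x + (a - 2 * b) * ((1 + y) * (1 + z) - w * x) := by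
  by_cases hne : a - 2 * b = 0
  · -- then `p = 5`
    obtain ⟨A, B, hA, hB⟩ := hZ
    have hBpos := hpos B hB
    have hab := D.hab
    have hAB : A = 2 * B := by
      have : (A : ℂ) = 2 * B := by rw [hA, hB]; linear_combination hne
      exact_mod_cast this
    have h3 : A ^ 2 + 1 = p * B ^ 2 := by
      rw [← hA, ← hB] at hab
      exact_mod_cast hab
    rw [hAB] at h3
    have h4 : B * (B * ((p : ℤ) - 4)) = 1 := by linear_combination -h3
    have hB1 : B = 1 := by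
      have h5 : B ∣ 1 := ⟨_, h4.symm⟩
      have := Int.le_of_dvd one_pos h5
      omega
    have hp5 : p = 5 := by
      rw [hB1] at h4
      omega
    have hA2 : A = 2 := by rw [hAB, hB1]; norm_num
    have hk0 : k = 0 := by have := D.hm; omega
    subst hk0
    subst hp5
    rw [Matrix.det_fin_one, Matrix.of_apply, T_apply, ← hA, ← hB, hB1, hA2]
    have e0 : chi 5 ℂ (((0 : Fin (0 + 1)) : ℕ) : ZMod 5) = 0 := by simp [chi_apply]
    have e1 : chi 5 ℂ (((0 : Fin (0 + 1)) : ℕ) - ((0 : Fin (0 + 1)) : ℕ) : ZMod 5) = 0 := by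
      rw [sub_self]; simp [chi_apply]
    have e2 : chi 5 ℂ 2 = -1 := by
      rw [chi_apply, quadraticChar_two (by rw [ZMod.ringChar_zmod_n]; norm_num), ZMod.card,
        ZMod.χ₈_nat_eq_if_mod_eight]
      norm_num
    rw [e0, e1, e2]
    push_cast
    ring
  · obtain ⟨c, hc, hs⟩ := D.c_Tk (k := k + 1) hk hne
    have hd := D.detTk (k := k + 1) hk
    have h := det4_col (T p ℂ (k + 1)) c (fun j => chi p ℂ ((j : ℕ) : ZMod p)) hc x y z w
    have h0 : ∀ i : Fin (k + 1), T p ℂ (k + 1) i 0 = chi p ℂ ((i : ℕ) : ZMod p) := by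
      intro i; rw [T_apply]; simp
    simp only [h0] at h
    rw [h]
    have hr0 : chi p ℂ (((0 : Fin (k + 1)) : ℕ) : ZMod p) = 0 := by
      simp [chi_apply]
    have hρ : ∑ j : Fin (k + 1), chi p ℂ ((j : ℕ) : ZMod p) * c j = 1 := by
      have h2 := congrFun hc 0
      rw [row_T] at h2
      rw [← h2]
      apply Finset.sum_congr rfl
      intro j _
      rw [Fin.val_zero, Nat.cast_zero, zero_sub, D.neg]
    rw [hr0, hρ, hs, hd]
    field_simp
    ring

theorem Dat.main_C (x y z w : ℂ) :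
    (Matrix.of fun i j : Fin m => CC p ℂ m i j + x + chi p ℂ (((i : ℕ) : ZMod p) + 1) * y
      + chi p ℂ (((j : ℕ) : ZMod p) + 1) * z
      + chi p ℂ (((i : ℕ) : ZMod p) + 1) * chi p ℂ (((j : ℕ) : ZMod p) + 1) * w).det =
    chi p ℂ 2 * m * ((y + 1) * z - w * x) + (p * b - a) * ((w + 1) * x - y * z)
      + chi p ℂ 2 * (b - a) * (w * (1 - x) + (y + 1) * (z + 1)) := by
  obtain ⟨c, hc, hs, hρ⟩ := D.c_C
  have hd := D.detC
  have hm0 := D.pos
  obtain ⟨k, hk⟩ : ∃ k, m = k + 1 := ⟨m - 1, by omega⟩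
  have key : ∀ (k : ℕ) (c : Fin (k + 1) → ℂ), (CC p ℂ (k + 1)).mulVec c = (fun _ => 1) →
      (Matrix.of fun i j : Fin (k + 1) => CC p ℂ (k + 1) i j + x + chi p ℂ (((i : ℕ) : ZMod p) + 1) * y
      + chi p ℂ (((j : ℕ) : ZMod p) + 1) * z
      + chi p ℂ (((i : ℕ) : ZMod p) + 1) * chi p ℂ (((j : ℕ) : ZMod p) + 1) * w).det =
      (CC p ℂ (k + 1)).det * ((1 + y + w) + (∑ j, c j) * ((1 + w) * x - y * z) +
        (∑ j : Fin (k + 1), chi p ℂ (((j : ℕ) : ZMod p) + 1) * c j) * ((1 + y) * z - w * x)) := by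
    intro k c hc
    have h := det4_col (CC p ℂ (k + 1)) c (fun j => chi p ℂ (((j : ℕ) : ZMod p) + 1)) hc x y z w
    have h0 : ∀ i : Fin (k + 1), CC p ℂ (k + 1) i 0 = chi p ℂ (((i : ℕ) : ZMod p) + 1) := by
      intro i; rw [CC_apply]; simp
    simp only [h0] at h
    rw [h]
    have hr0 : chi p ℂ ((((0 : Fin (k + 1)) : ℕ) : ZMod p) + 1) = 1 := by
      simp [chi_apply]
    rw [hr0]
    ring
  subst hk
  rw [key k c hc, hs, hρ, hd]
  have hne := D.hne
  have hq := D.q2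
  field_simp
  linear_combination ((b - a) * (a - p * b) * ((1 + w) * x - y * z)) * hq

end one

/-- `ε ^ ((2 - (2/p)) h)` -/
theorem dat_of (h1 : p % 4 = 1) (m : ℕ) (hm : p = 2 * m + 1) (K : Type) [Field K] [NumberField K]
    (h2 : finrank ℚ K = 2) (β : K) (hβ : β ^ 2 = (p : K)) (φ : K →+* ℝ) (ε : ℝ) (hε : RQ.IsFund K φ ε)
    (a b : ℚ) (hab : ε ^ ((2 - legendreSym p 2) * (classNumber K : ℤ)) = a + b * Real.sqrt p) :
    Dat p m (a : ℂ) (b : ℂ) ∧ (∃ A B : ℤ, (A : ℂ) = a ∧ (B : ℂ) = b) ∧ (∀ B : ℤ, (B : ℂ) = b → 0 < B) := by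
  have hp : p.Prime := Fact.out
  have hp2 : p ≠ 2 := by omega
  have hε1 := hε.1
  have hε0 : 0 < ε := by linarith
  obtain ⟨hR, hN⟩ := RQ.prod_res h1 K h2 β hβ φ ε hε
  set H := ε ^ (classNumber K) with hH
  have hH0 : 0 < H := by positivity
  have hcl : 0 < classNumber K := classNumber_pos K
  have hH1 : 1 < H := one_lt_pow₀ hε1 hcl.ne'
  have hls : legendreSym p 2 = quadraticChar (ZMod p) 2 := by simp [legendreSym]
  have h2' : quadraticChar (ZMod p) 2 = 1 ∨ quadraticChar (ZMod p) 2 = -1 :=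
    quadraticChar_dichotomy (two_ne' hp2)
  set E : ℝ := if quadraticChar (ZMod p) 2 = 1 then H else H ^ 3 with hE
  have hEε : E = ε ^ ((2 - legendreSym p 2) * (classNumber K : ℤ)) := by
    rw [hls, hE]
    rcases h2' with h | h
    · rw [if_pos h, h, hH, ← zpow_natCast]
      congr 1
      ring
    · rw [if_neg (by rw [h]; norm_num), h, hH, ← pow_mul, ← zpow_natCast]
      congr 1
      push_cast
      ring
  have hE1 : 1 < E := by
    rw [hE]
    split_ifs
    · exact hH1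
    · exact one_lt_pow₀ hH1 (by norm_num)
  obtain ⟨hP1, hPm⟩ := P_values h1 m hm H hH0 hR hN E hE
  obtain ⟨t1, t2, t3, t4, t5, ⟨B, t6⟩, t7, t8⟩ := thmA m hm h1 E hE1 a b (hEε.trans hab) hP1 hPm
  set d := (T p ℤ (m + 1)).det with hd
  have hA : ((-d : ℤ) : ℚ) = a := by push_cast; rw [t1]; ring
  have hint : (-d) ^ 2 + 1 = (p : ℤ) * B ^ 2 := by
    rw [← hA, ← t6] at t4
    exact_mod_cast t4
  have hBpos : 0 < B := by
    rw [← t6] at t5
    exact_mod_cast t5
  have hAc : ((-d : ℤ) : ℂ) = (a : ℂ) := by rw [← hA]; push_cast; rfl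
  have hBc : ((B : ℤ) : ℂ) = (b : ℂ) := by rw [← t6]; push_cast; rfl
  have hp5 : 5 ≤ p := by
    have := hp.two_le
    omega
  refine ⟨?_, ⟨-d, B, hAc, hBc⟩, ?_⟩
  · refine ⟨hm, h1, ?_, ?_, ?_, ?_, ?_, ?_, ?_⟩
    · exact_mod_cast t4
    · intro h0
      rw [← hAc] at h0
      have h0' : (-d : ℤ) = 0 := by exact_mod_cast h0
      rw [h0'] at hint
      have : (p : ℤ) ∣ 1 := ⟨B ^ 2, by linear_combination hint⟩
      have := Int.le_of_dvd one_pos this
      omega
    · intro h0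
      rw [← hBc] at h0
      have : B = 0 := by exact_mod_cast h0
      omega
    · intro h0
      rw [← hAc, ← hBc] at h0
      have h0' : (-d : ℤ) = B := by
        have : (((-d : ℤ) - B : ℤ) : ℂ) = 0 := by push_cast at h0 ⊢; exact h0
        have : (-d : ℤ) - B = 0 := by exact_mod_cast this
        linarith
      rw [h0'] at hint
      have h3 : B * (B * ((p : ℤ) - 1)) = 1 := by linear_combination -hint
      have h5 : B ∣ 1 := ⟨_, h3.symm⟩
      have h6 := Int.le_of_dvd one_pos h5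
      have h7 : B = 1 := by omega
      rw [h7] at h3
      omega
    · rw [t7]
    · rw [t8]
    · rw [← det_cast, ← hd, ← hAc]; push_cast; ring
  · intro B' hB'
    rw [← hBc] at hB'
    have : B' = B := by exact_mod_cast hB'
    omega

end Pool.Agent.R945.TP
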